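import Pool.Agent.J4.H25.MC.Rat

set_option autoImplicit false

/-!
# The recursion
-/

namespace Pool.Agent.J4.H25.MC

section
variable {R : Type} [CommRing R] {u : Rˣ}

/-- the recursion for the zeta functions of the stabilisations -/
def Rec (u : Rˣ) (Z : ℕ → PowerSeries R) : Prop := ∀ j,
  den u (-1, 1) * Z j = PowerSeries.C (((u⁻¹ : Rˣ) : R) ^ 3) *
    ((PowerSeries.C (u : R) * PowerSeries.C (u : R) + PowerSeries.C (u : R)) *
      PowerSeries.rescale (u : R) (den u (-1, 1) * Z (j + 1)) -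
      PowerSeries.rescale (u : R) (PowerSeries.rescale (u : R) (den u (-1, 1) * Z (j + 2))))

/-- the rescaled series -/
noncomputable def VV (u : Rˣ) (Z : ℕ → PowerSeries R) (j : ℕ) : PowerSeries R :=
  (PowerSeries.rescale (u : R))^[j] (den u (-1, 1) * Z j)

theorem iter_C_mul (j : ℕ) : ∀ (c : R) (g : PowerSeries R),
    (PowerSeries.rescale (u : R))^[j] (PowerSeries.C c * g) =
      PowerSeries.C c * (PowerSeries.rescale (u : R))^[j] g := by
  induction j with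
  | zero => intro c g; rfl
  | succ j ih =>
    intro c g
    rw [Function.iterate_succ_apply, map_mul, rescale_C2, ih, Function.iterate_succ_apply]

theorem iter_sub (j : ℕ) : ∀ (g h : PowerSeries R),
    (PowerSeries.rescale (u : R))^[j] (g - h) =
      (PowerSeries.rescale (u : R))^[j] g - (PowerSeries.rescale (u : R))^[j] h := by
  induction j with
  | zero => intro g h; rfl
  | succ j ih =>
    intro g h
    rw [Function.iterate_succ_apply, map_sub, ih, Function.iterate_succ_apply,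
      Function.iterate_succ_apply]

theorem VV_rec {Z : ℕ → PowerSeries R} (hZ : Rec u Z) (j : ℕ) :
    VV u Z j = PowerSeries.C (((u⁻¹ : Rˣ) : R) ^ 3) *
      (PowerSeries.C ((u : R) * (u : R) + (u : R)) * VV u Z (j + 1) - VV u Z (j + 2)) := by
  unfold VV
  have h1 : PowerSeries.C (u : R) * PowerSeries.C (u : R) + PowerSeries.C (u : R) =
      (PowerSeries.C ((u : R) * (u : R) + (u : R)) : PowerSeries R) := by
    rw [map_add, map_mul]
  rw [hZ j, h1, iter_C_mul, iter_sub, iter_C_mul]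
  simp only [Function.iterate_succ_apply]

theorem core (κ : ℕ) {Z : ℕ → PowerSeries R} (hZ : Rec u Z) {T : Set (ℤ × ℤ)}
    (h1 : VV u Z κ ∈ rat u T) (h2 : VV u Z (κ + 1) ∈ rat u T) :
    den u (-1, 1) * Z 0 ∈ rat u T := by
  have h : ∀ κ, VV u Z κ ∈ rat u T → VV u Z (κ + 1) ∈ rat u T → VV u Z 0 ∈ rat u T := by
    intro κ
    induction κ with
    | zero => intro h _; exact h
    | succ κ ih =>
      intro h3 h4
      refine ih ?_ h3
      rw [VV_rec hZ κ]
      exact (rat u T).mul_mem (C_mem_rat _ _) ((rat u T).sub_mem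
        ((rat u T).mul_mem (C_mem_rat _ _) h3) h4)
  exact h κ h1 h2

/-- **The refined form.** -/
theorem coreA (κ : ℕ) {Z : ℕ → PowerSeries R} (hZ : Rec u Z) {S1 S2 T : Set (ℤ × ℤ)}
    (h1 : ∀ p ∈ S1, 0 < p.2 ∧ shU κ p ∈ T) (h2 : ∀ p ∈ S2, 0 < p.2 ∧ shU ((κ + 1 : ℕ) : ℤ) p ∈ T)
    (z1 : den u (-1, 1) * Z κ ∈ rat u S1) (z2 : den u (-1, 1) * Z (κ + 1) ∈ rat u S2) :
    den u (-1, 1) * Z 0 ∈ rat u T :=
  core κ hZ (rescale_pow_mem κ (fun p hp => (h1 p hp).1) (fun p hp => (h1 p hp).2) z1)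
    (rescale_pow_mem (κ + 1) (fun p hp => (h2 p hp).1) (fun p hp => (h2 p hp).2) z2)

/-- the pairs of slope in `s` -/
def Bad (s : Set ℤ) : Set (ℤ × ℤ) := {p | 0 < p.2 ∧ ∃ m ∈ s, p.1 = m * p.2}

/-- one series -/
theorem VV_mem (j : ℕ) {Z : ℕ → PowerSeries R} {G S : Set (ℤ × ℤ)} {s : Set ℤ}
    (hs : (j : ℤ) - 1 ∈ s) (h : ∀ p ∈ S, 0 < p.2 ∧ (p.1 = -p.2 ∨ shU j p ∈ G))
    (hz : Z j ∈ rat u S) : VV u Z j ∈ rat u (G ∪ Bad s) := by
  refine rescale_pow_mem j (fun p hp => (h p hp).1) (fun p hp => ?_)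
    ((rat u S).mul_mem (den_mem_rat _ _) hz)
  rcases (h p hp).2 with h1 | h1
  · right
    refine ⟨(h p hp).1, _, hs, ?_⟩
    unfold shU
    simp only
    rw [h1]
    ring
  · exact Or.inl h1

/-- **The localised form.** -/
theorem coreB (hu : Sep u) (κ : ℕ) {Z : ℕ → PowerSeries R} (hZ : Rec u Z) {G : Set (ℤ × ℤ)}
    (S : ℕ → Set (ℤ × ℤ))
    (h : ∀ i < 4, ∀ p ∈ S i, 0 < p.2 ∧ (p.1 = -p.2 ∨ shU ((κ + i : ℕ) : ℤ) p ∈ G))
    (hz : ∀ i < 4, Z (κ + i) ∈ rat u (S i)) : den u (-1, 1) * Z 0 ∈ rat u G := by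
  have e0 := VV_mem (G := G) (s := {(κ : ℤ) - 1, (κ : ℤ)}) (κ + 0) (by push_cast; left; ring)
    (h 0 (by norm_num)) (hz 0 (by norm_num))
  have e1 := VV_mem (G := G) (s := {(κ : ℤ) - 1, (κ : ℤ)}) (κ + 1) (by push_cast; right; simp)
    (h 1 (by norm_num)) (hz 1 (by norm_num))
  have e2 := VV_mem (G := G) (s := {(κ : ℤ) + 1, (κ : ℤ) + 2}) (κ + 2)
    (by push_cast; left; ring) (h 2 (by norm_num)) (hz 2 (by norm_num))
  have e3 := VV_mem (G := G) (s := {(κ : ℤ) + 1, (κ : ℤ) + 2}) (κ + 3)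
    (by push_cast; right; rw [Set.mem_singleton_iff]; ring) (h 3 (by norm_num))
    (hz 3 (by norm_num))
  have f1 := core κ hZ e0 e1
  have f2 := core (κ + 2) hZ e2 e3
  refine rat_inter hu (fun p hp => hp.1) (fun p hp => hp.1) ?_ f1 f2
  rintro p ⟨hp, m, hm, h1⟩ q ⟨hq, m', hm', h2⟩ h3
  rw [h1, h2] at h3
  have h4 : (m - m') * (p.2 * q.2) = 0 := by linear_combination h3
  have h5 : m - m' ≠ 0 := by
    simp only [Set.mem_insert_iff, Set.mem_singleton_iff] at hm hm'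
    omega
  exact (mul_ne_zero h5 (mul_pos hp hq).ne') h4

end

end Pool.Agent.J4.H25.MC
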