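import Pool.Agent.Y229.MS.Stm

set_option autoImplicit false

/-!
# Reduction of the degree to three by the addition of products `y z` and automorphisms
-/

namespace Pool.Agent.J4.H25.MC

open MvPolynomial
open Pool.Agent.Y229.MS (addyz)

section
variable {k : Type} [Field k] {σ τ : Type}

/-- the measure of the complexity -/
noncomputable def mu (f : MvPolynomial σ k) : ℕ := ∑ m ∈ f.support, (m.degree - 3)

theorem mu_le_of_subset (f : MvPolynomial σ k) (s : Finset (σ →₀ ℕ)) (h : f.support ⊆ s) :
    mu f ≤ ∑ m ∈ s, (m.degree - 3) := Finset.sum_le_sum_of_subset h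

theorem mu_add (p q : MvPolynomial σ k) : mu (p + q) ≤ mu p + mu q := by
  classical
  refine (mu_le_of_subset _ _ support_add).trans ?_
  have := Finset.sum_union_inter (s₁ := p.support) (s₂ := q.support)
    (f := fun m => m.degree - 3)
  unfold mu
  omega

theorem mu_monomial (m : σ →₀ ℕ) (c : k) : mu (monomial m c) ≤ m.degree - 3 := by
  refine (mu_le_of_subset _ {m} support_monomial_subset).trans ?_
  rw [Finset.sum_singleton]

theorem mu_rename (e : σ → τ) (he : Function.Injective e) (p : MvPolynomial σ k) :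
    mu (rename e p) ≤ mu p := by
  classical
  refine (mu_le_of_subset _ (p.support.image (Finsupp.mapDomain e)) ?_).trans ?_
  · rw [support_rename_of_injective he]
  · rw [Finset.sum_image fun a _ b _ h => Finsupp.mapDomain_injective he h]
    unfold mu
    refine Finset.sum_le_sum fun m _ => ?_
    rw [Finsupp.degree_mapDomain]

theorem mu_erase (f : MvPolynomial σ k) (m : σ →₀ ℕ) (hm : m ∈ f.support) :
    mu (f - monomial m (coeff m f)) + (m.degree - 3) ≤ mu f := by
  classical
  have h1 : (f - monomial m (coeff m f)).support ⊆ f.support.erase m := by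
    intro w hw
    rw [mem_support_iff, coeff_sub, coeff_monomial] at hw
    rw [Finset.mem_erase, mem_support_iff]
    by_cases h : m = w
    · subst h
      rw [if_pos rfl, sub_self] at hw
      exact absurd rfl hw
    · rw [if_neg h, sub_zero] at hw
      exact ⟨fun h' => h h'.symm, hw⟩
  have h2 := mu_le_of_subset _ _ h1
  have h3 := Finset.sum_erase_add f.support (fun m => m.degree - 3) hm
  unfold mu at h2 ⊢
  omega

theorem totalDegree_le_of_mu (f : MvPolynomial σ k) (h : mu f = 0) : f.totalDegree ≤ 3 := by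
  unfold totalDegree
  refine Finset.sup_le fun m hm => ?_
  have h1 := Finset.sum_eq_zero_iff.1 h m hm
  have h2 : (m.sum fun _ e => e) = m.degree := rfl
  rw [h2]
  omega

theorem exists_of_mu (f : MvPolynomial σ k) (h : 0 < mu f) : ∃ m ∈ f.support, 4 ≤ m.degree := by
  obtain ⟨m, hm, h1⟩ := Finset.exists_ne_zero_of_sum_ne_zero (Nat.pos_iff_ne_zero.1 h)
  exact ⟨m, hm, by omega⟩

theorem exists_single (m : σ →₀ ℕ) (h : 0 < m.degree) : ∃ i m', m = Finsupp.single i 1 + m' := by
  classical
  have h0 : m ≠ 0 := by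
    rintro rfl
    simp at h
  obtain ⟨i, hi⟩ := Finsupp.ne_iff.1 h0
  refine ⟨i, m - Finsupp.single i 1, ?_⟩
  ext j
  rw [Finsupp.add_apply, Finsupp.tsub_apply]
  by_cases hj : i = j
  · subst hj
    rw [Finsupp.single_eq_same]
    have : m i ≠ 0 := hi
    omega
  · rw [Finsupp.single_eq_of_ne (Ne.symm hj)]
    omega

theorem exists_two (m : σ →₀ ℕ) (h : 2 ≤ m.degree) :
    ∃ i j m', m = (Finsupp.single i 1 + Finsupp.single j 1) + m' := by
  obtain ⟨i, m1, h1⟩ := exists_single m (by omega)
  have h2 : m.degree = 1 + m1.degree := by rw [h1, map_add, Finsupp.degree_single]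
  obtain ⟨j, m2, h3⟩ := exists_single m1 (by omega)
  exact ⟨i, j, m2, by rw [h1, h3, add_assoc]⟩

end

section
variable {k : Type} [Field k] {n : ℕ}

/-- the substitution `y ↦ y + A`, `z ↦ z + B` -/
noncomputable def sub1 (A B : MvPolynomial (Fin n) k) :
    MvPolynomial (Fin (n + 2)) k →ₐ[k] MvPolynomial (Fin (n + 2)) k :=
  aeval (Fin.addCases (fun i => X (Fin.castAdd 2 i)) fun j =>
    X (Fin.natAdd n j) + rename (Fin.castAdd 2) (if j = 0 then A else B))

theorem sub1_X1 (A B : MvPolynomial (Fin n) k) (i : Fin n) :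
    sub1 A B (X (Fin.castAdd 2 i)) = X (Fin.castAdd 2 i) := by
  unfold sub1
  rw [aeval_X, Fin.addCases_left]

theorem sub1_X2 (A B : MvPolynomial (Fin n) k) (j : Fin 2) :
    sub1 A B (X (Fin.natAdd n j)) =
      X (Fin.natAdd n j) + rename (Fin.castAdd 2) (if j = 0 then A else B) := by
  unfold sub1
  rw [aeval_X, Fin.addCases_right]

theorem sub1_rename (A B g : MvPolynomial (Fin n) k) :
    sub1 A B (rename (Fin.castAdd 2) g) = rename (Fin.castAdd 2) g := by
  have h : (sub1 A B).comp (rename (Fin.castAdd 2)) = rename (Fin.castAdd 2) := by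
    apply MvPolynomial.algHom_ext
    intro i
    rw [AlgHom.comp_apply, rename_X, sub1_X1]
  exact DFunLike.congr_fun h g

theorem sub1_comp (A B A' B' : MvPolynomial (Fin n) k) (hA : A + A' = 0) (hB : B + B' = 0) :
    (sub1 A B).comp (sub1 A' B') = AlgHom.id k _ := by
  apply MvPolynomial.algHom_ext
  intro i
  rw [AlgHom.comp_apply, AlgHom.id_apply]
  refine Fin.addCases (fun i => ?_) (fun j => ?_) i
  · rw [sub1_X1, sub1_X1]
  · rw [sub1_X2, map_add, sub1_rename, sub1_X2, add_assoc, ← map_add]
    have h : (if j = 0 then A else B) + (if j = 0 then A' else B') = 0 := by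
      split_ifs
      · exact hA
      · exact hB
    rw [h, map_zero, add_zero]

/-- the automorphism `y ↦ y + A`, `z ↦ z + B` -/
noncomputable def autAB (A B : MvPolynomial (Fin n) k) :
    MvPolynomial (Fin (n + 2)) k ≃ₐ[k] MvPolynomial (Fin (n + 2)) k :=
  AlgEquiv.ofAlgHom (sub1 A B) (sub1 (-A) (-B))
    (sub1_comp _ _ _ _ (add_neg_cancel _) (add_neg_cancel _))
    (sub1_comp _ _ _ _ (neg_add_cancel _) (neg_add_cancel _))

theorem autAB_addyz (A B f : MvPolynomial (Fin n) k) :
    autAB A B (addyz f) = rename (Fin.castAdd 2) f +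
      (X (Fin.natAdd n 0) + rename (Fin.castAdd 2) A) *
        (X (Fin.natAdd n 1) + rename (Fin.castAdd 2) B) := by
  show sub1 A B (addyz f) = _
  unfold addyz
  rw [map_add, map_mul, sub1_rename, sub1_X2, sub1_X2, if_pos rfl, if_neg (by decide)]

/-- **One step.** -/
theorem mu_step (f : MvPolynomial (Fin n) k) (h : 0 < mu f) :
    ∃ φ : MvPolynomial (Fin (n + 2)) k ≃ₐ[k] MvPolynomial (Fin (n + 2)) k,
      mu (φ (addyz f)) < mu f := by
  obtain ⟨m, hm, h4⟩ := exists_of_mu f h
  obtain ⟨i, j, m', hm'⟩ := exists_two m (by omega)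
  set c := coeff m f with hc
  set A : MvPolynomial (Fin n) k := monomial (Finsupp.single i 1 + Finsupp.single j 1) 1 with hA
  set B : MvPolynomial (Fin n) k := monomial m' c with hB
  have hAB : A * B = monomial m c := by
    rw [hA, hB, monomial_mul, one_mul, ← hm']
  refine ⟨autAB A (-B), ?_⟩
  set R := f - monomial m c with hR
  have e1 : autAB A (-B) (addyz f) = rename (Fin.castAdd 2) R +
      (X (Fin.natAdd n 0) * X (Fin.natAdd n 1) +
        (X (Fin.natAdd n 0) * rename (Fin.castAdd 2) (-B) +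
          X (Fin.natAdd n 1) * rename (Fin.castAdd 2) A)) := by
    rw [autAB_addyz]
    have e2 : rename (Fin.castAdd 2) R = rename (Fin.castAdd 2) f -
        rename (Fin.castAdd 2) A * (rename (Fin.castAdd 2) B : MvPolynomial (Fin (n + 2)) k) := by
      rw [hR, ← hAB, map_sub, map_mul]
    rw [e2, map_neg]
    ring
  have d1 : m.degree = 2 + m'.degree := by
    rw [hm', map_add, map_add, Finsupp.degree_single, Finsupp.degree_single]
  have e3 : (X (Fin.natAdd n 0) * X (Fin.natAdd n 1) : MvPolynomial (Fin (n + 2)) k) =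
      monomial (Finsupp.single (Fin.natAdd n 0) 1 + Finsupp.single (Fin.natAdd n 1) 1) 1 := by
    unfold X
    rw [monomial_mul, one_mul]
  have e4 : (X (Fin.natAdd n 0) * rename (Fin.castAdd 2) (-B) : MvPolynomial (Fin (n + 2)) k) =
      monomial (Finsupp.single (Fin.natAdd n 0) 1 + m'.mapDomain (Fin.castAdd 2)) (-c) := by
    unfold X
    rw [hB, ← map_neg, rename_monomial, monomial_mul, one_mul]
  have e5 : (X (Fin.natAdd n 1) * rename (Fin.castAdd 2) A : MvPolynomial (Fin (n + 2)) k) =
      monomial (Finsupp.single (Fin.natAdd n 1) 1 +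
        (Finsupp.single i 1 + Finsupp.single j 1).mapDomain (Fin.castAdd 2)) 1 := by
    unfold X
    rw [hA, rename_monomial, monomial_mul, one_mul]
  rw [e1, e3, e4, e5]
  have b0 := mu_rename (Fin.castAdd 2) (Fin.castAdd_injective n 2) R
  have b1 := mu_erase f m hm
  have b2 := mu_monomial (k := k) ((Finsupp.single (Fin.natAdd n 0) 1 +
    Finsupp.single (Fin.natAdd n 1) 1 : Fin (n + 2) →₀ ℕ)) 1
  have b3 := mu_monomial (Finsupp.single (Fin.natAdd n 0) 1 + m'.mapDomain (Fin.castAdd 2) :
    Fin (n + 2) →₀ ℕ) (-c)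
  have b4 := mu_monomial (k := k) (Finsupp.single (Fin.natAdd n 1) 1 +
        (Finsupp.single i 1 + Finsupp.single j 1).mapDomain (Fin.castAdd 2) :
    Fin (n + 2) →₀ ℕ) 1
  rw [map_add, Finsupp.degree_single, Finsupp.degree_single] at b2
  rw [map_add, Finsupp.degree_single, Finsupp.degree_mapDomain] at b3
  rw [map_add, Finsupp.degree_single, Finsupp.degree_mapDomain, map_add, Finsupp.degree_single,
    Finsupp.degree_single] at b4
  refine lt_of_le_of_lt (mu_add _ _) ?_
  refine lt_of_le_of_lt (add_le_add b0 ((mu_add _ _).trans (add_le_add b2 ((mu_add _ _).trans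
    (add_le_add b3 b4))))) ?_
  rw [← hR] at b1
  omega

theorem mu_addyz (f : MvPolynomial (Fin n) k) : mu (addyz f) ≤ mu f := by
  have e3 : (X (Fin.natAdd n 0) * X (Fin.natAdd n 1) : MvPolynomial (Fin (n + 2)) k) =
      monomial (Finsupp.single (Fin.natAdd n 0) 1 + Finsupp.single (Fin.natAdd n 1) 1) 1 := by
    unfold X
    rw [monomial_mul, one_mul]
  have b0 := mu_rename (Fin.castAdd 2) (Fin.castAdd_injective n 2) f
  have b2 := mu_monomial (k := k) ((Finsupp.single (Fin.natAdd n 0) 1 +
    Finsupp.single (Fin.natAdd n 1) 1 : Fin (n + 2) →₀ ℕ)) 1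
  rw [map_add, Finsupp.degree_single, Finsupp.degree_single] at b2
  unfold addyz
  rw [e3]
  refine (mu_add _ _).trans ?_
  omega

end

end Pool.Agent.J4.H25.MC
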