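import Pool.Agent.J4.H25.MC.ZP
import Pool.Agent.J4.H25.MC.Deg

set_option autoImplicit false

/-!
# Stable isomorphism with cubic polynomials
-/

namespace Pool.Agent.J4.H25.MC

open MvPolynomial
open Pool.Agent.Y229.MS (addyz itr)
open Pool.Agent.Y405.MS (extH extH_X1 extH_X2 extH_rename extH_comp)
open Pool.Agent.W428.MOT (zeta)

section
variable {k : Type} [Field k] {a b n : ℕ}

/-- extension by two variables -/
noncomputable def extE (ψ : MvPolynomial (Fin a) k ≃ₐ[k] MvPolynomial (Fin b) k) :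
    MvPolynomial (Fin (a + 2)) k ≃ₐ[k] MvPolynomial (Fin (b + 2)) k :=
  AlgEquiv.ofAlgHom (extH ψ.toAlgHom) (extH ψ.symm.toAlgHom)
    (extH_comp _ _ fun g => ψ.apply_symm_apply g) (extH_comp _ _ fun g => ψ.symm_apply_apply g)

theorem extE_addyz (ψ : MvPolynomial (Fin a) k ≃ₐ[k] MvPolynomial (Fin b) k)
    (f : MvPolynomial (Fin a) k) : extE ψ (addyz f) = addyz (ψ f) := by
  show extH ψ.toAlgHom (addyz f) = addyz (ψ f)
  unfold addyz
  rw [map_add, map_mul, extH_rename, extH_X2, extH_X2]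
  rfl

theorem extE_symm_X1 (ψ : MvPolynomial (Fin a) k ≃ₐ[k] MvPolynomial (Fin b) k) (i : Fin b) :
    (extE ψ).symm (X (Fin.castAdd 2 i)) = rename (Fin.castAdd 2) (ψ.symm (X i)) :=
  extH_X1 ψ.symm.toAlgHom i

theorem extE_symm_X2 (ψ : MvPolynomial (Fin a) k ≃ₐ[k] MvPolynomial (Fin b) k) (j : Fin 2) :
    (extE ψ).symm (X (Fin.natAdd b j)) = X (Fin.natAdd a j) :=
  extH_X2 ψ.symm.toAlgHom j

/-- the image of a point -/
noncomputable def mvk (K : Type) [Field K] [Algebra k K]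
    (ψ : MvPolynomial (Fin a) k ≃ₐ[k] MvPolynomial (Fin b) k) (x : Fin a → K) : Fin b → K :=
  fun j => aeval x (ψ.symm (X j))

theorem mvk_ext (K : Type) [Field K] [Algebra k K]
    (ψ : MvPolynomial (Fin a) k ≃ₐ[k] MvPolynomial (Fin b) k) (x : Fin a → K) :
    mvk K (extE ψ) (ext0 x) = ext0 (mvk K ψ x) := by
  funext j
  refine Fin.addCases (fun i => ?_) (fun j => ?_) j
  · unfold mvk ext0
    rw [extE_symm_X1, Fin.append_left, aeval_rename]
    have h : (Fin.append x fun _ => (0 : K)) ∘ Fin.castAdd 2 = x := by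
      funext i
      simp only [Function.comp_apply, Fin.append_left]
    rw [h]
  · unfold mvk ext0
    rw [extE_symm_X2, Fin.append_right, aeval_X, Fin.append_right]

theorem zeta_k {K : Type} [Field K] [CharZero K] [Algebra k K]
    (ψ : MvPolynomial (Fin a) k ≃ₐ[k] MvPolynomial (Fin a) k) (f : MvPolynomial (Fin a) k)
    (x : Fin a → K) : zeta (map (algebraMap k K) (ψ f)) (mvk K ψ x) =
      zeta (map (algebraMap k K) f) x := by
  obtain ⟨ψ', hψ'⟩ := Pool.Agent.Y405.MS.bc k K ψ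
  have h : mv ψ' x = mvk K ψ x := by
    funext j
    have h1 : ψ'.symm (X j) = map (algebraMap k K) (ψ.symm (X j)) := by
      rw [AlgEquiv.symm_apply_eq, hψ', AlgEquiv.apply_symm_apply, map_X]
    unfold mv mvk
    rw [h1, eval_map, aeval_def]
  rw [← hψ', ← h, zeta_iso']

/-- a cubic polynomial after an automorphism -/
def Cub (g : MvPolynomial (Fin a) k) : Prop :=
  ∃ φ : MvPolynomial (Fin a) k ≃ₐ[k] MvPolynomial (Fin a) k, (φ g).totalDegree ≤ 3

theorem cub_iso (hab : a = b) (ψ : MvPolynomial (Fin a) k ≃ₐ[k] MvPolynomial (Fin b) k)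
    {g : MvPolynomial (Fin a) k} {h : MvPolynomial (Fin b) k} (e : ψ g = h) (hh : Cub h) :
    Cub g := by
  subst hab
  obtain ⟨φ, hφ⟩ := hh
  refine ⟨ψ.trans φ, ?_⟩
  show (φ (ψ g)).totalDegree ≤ 3
  rw [e]
  exact hφ

theorem itr_shift (f : MvPolynomial (Fin n) k) (j : ℕ) :
    ∃ ψ : MvPolynomial (Fin (n + 2 * (j + 1))) k ≃ₐ[k] MvPolynomial (Fin (n + 2 + 2 * j)) k,
      ψ (itr f (j + 1)) = itr (addyz f) j := by
  induction j with
  | zero => exact ⟨AlgEquiv.refl, rfl⟩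
  | succ j ih =>
    obtain ⟨ψ, hψ⟩ := ih
    refine ⟨extE ψ, ?_⟩
    show extE ψ (addyz (itr f (j + 1))) = addyz (itr (addyz f) j)
    rw [extE_addyz, hψ]

theorem itr_map (ψ : MvPolynomial (Fin a) k ≃ₐ[k] MvPolynomial (Fin b) k)
    (f : MvPolynomial (Fin a) k) (j : ℕ) :
    ∃ Ψ : MvPolynomial (Fin (a + 2 * j)) k ≃ₐ[k] MvPolynomial (Fin (b + 2 * j)) k,
      Ψ (itr f j) = itr (ψ f) j := by
  induction j with
  | zero => exact ⟨ψ, rfl⟩
  | succ j ih =>
    obtain ⟨Ψ, hΨ⟩ := ih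
    refine ⟨extE Ψ, ?_⟩
    show extE Ψ (addyz (itr f j)) = addyz (itr (ψ f) j)
    rw [extE_addyz, hΨ]

/-- **Stabilisation makes every polynomial cubic.** -/
theorem exists_cub (m : ℕ) : ∀ {n : ℕ} (f : MvPolynomial (Fin n) k), mu f ≤ m →
    ∃ κ ≤ m, Cub (itr f κ) := by
  induction m with
  | zero =>
    intro n f hf
    exact ⟨0, le_rfl, AlgEquiv.refl, totalDegree_le_of_mu f (by omega)⟩
  | succ m ih =>
    intro n f hf
    rcases Nat.eq_zero_or_pos (mu f) with h0 | h0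
    · exact ⟨0, Nat.zero_le _, AlgEquiv.refl, totalDegree_le_of_mu f h0⟩
    · obtain ⟨φ, hφ⟩ := mu_step f h0
      obtain ⟨κ, hκ, h1⟩ := ih (φ (addyz f)) (by omega)
      obtain ⟨Ψ, hΨ⟩ := itr_map φ (addyz f) κ
      obtain ⟨ψ, hψ⟩ := itr_shift f κ
      exact ⟨κ + 1, by omega, cub_iso (by ring) ψ hψ (cub_iso rfl Ψ hΨ h1)⟩

theorem deg3_addyz (f : MvPolynomial (Fin n) k) (h : f.totalDegree ≤ 3) :
    (addyz f).totalDegree ≤ 3 := by
  unfold addyz
  refine (totalDegree_add _ _).trans (max_le ?_ ?_)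
  · exact (totalDegree_rename_le _ _).trans h
  · refine (totalDegree_mul _ _).trans ?_
    rw [totalDegree_X, totalDegree_X]
    norm_num

end

end Pool.Agent.J4.H25.MC
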