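import Pool.Agent.J4.H25.MC.Root
import Pool.Agent.J4.H25.MC.Iso
import Pool.Agent.J4.H25.MC.Core

set_option autoImplicit false

/-!
# The reduction to cubic polynomials
-/

namespace Pool.Agent.J4.H25.MC

open MvPolynomial Pool.Agent.W428.MOT
open Pool.Agent.Y229.MS (addyz itr fst')

/-- the point `(x, 0, …, 0)` -/
def xitr {K : Type} [Field K] {n : ℕ} (x : Fin n → K) : (j : ℕ) → Fin (n + 2 * j) → K
  | 0 => x
  | j + 1 => ext0 (xitr x j)

section
variable {K : Type} [Field K] {R : Type} [CommRing R]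

/-- `𝕃` in `R` -/
noncomputable def LR (ψ : MK K →+* R) : Rˣ := Units.map (ψ : MK K →* R) (Lu K)

theorem LR_val (ψ : MK K →+* R) : ((LR ψ : Rˣ) : R) = ψ ((Lu K : (MK K)ˣ) : MK K) := rfl

theorem LR_inv (ψ : MK K →+* R) :
    (((LR ψ)⁻¹ : Rˣ) : R) = ψ (((Lu K)⁻¹ : (MK K)ˣ) : MK K) := rfl

theorem map_fst (ψ : MK K →+* R) : PowerSeries.map ψ (fst' K) = den (LR ψ) (-1, 1) := by
  unfold fst' den
  have h1 : (((LR ψ) ^ (-1 : ℤ) : Rˣ) : R) = ψ (((Lu K)⁻¹ : (MK K)ˣ) : MK K) := by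
    rw [zpow_neg_one]
    rfl
  have h2 : (1 : ℤ).toNat = 1 := rfl
  rw [map_sub, map_one, map_mul, PowerSeries.map_C, PowerSeries.map_X]
  simp only
  rw [h1, h2, pow_one]

theorem map_fst_mul (ψ : MK K →+* R) (F : PowerSeries (MK K)) :
    PowerSeries.map ψ (fst' K * F) = den (LR ψ) (-1, 1) * PowerSeries.map ψ F := by
  rw [map_mul, map_fst]

theorem map_rescale (ψ : MK K →+* R) (a : MK K) (F : PowerSeries (MK K)) :
    PowerSeries.map ψ (PowerSeries.rescale a F) =
      PowerSeries.rescale (ψ a) (PowerSeries.map ψ F) := by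
  ext N
  rw [PowerSeries.coeff_map, PowerSeries.coeff_rescale, PowerSeries.coeff_rescale,
    PowerSeries.coeff_map, map_mul, map_pow]

theorem ev_xitr {n : ℕ} (f : MvPolynomial (Fin n) K) (x : Fin n → K) (j : ℕ) :
    eval (xitr x j) (itr f j) = eval x f := by
  induction j with
  | zero => rfl
  | succ j ih =>
    show eval (ext0 (xitr x j)) (addyz (itr f j)) = eval x f
    rw [eval_addyz, ih]

/-- the recursion -/
theorem rec_zeta [CharZero K] (ψ : MK K →+* R) {n : ℕ} (f : MvPolynomial (Fin n) K)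
    (x : Fin n → K) (h : eval x f = 0) :
    Rec (LR ψ) fun j => PowerSeries.map ψ (zeta (itr f j) (xitr x j)) := by
  intro j
  have h1 : eval (xitr x j) (itr f j) = 0 := by rw [ev_xitr, h]
  have h2 := congrArg (PowerSeries.map ψ) (formula (itr f j) (xitr x j) h1)
  rw [map_fst_mul, map_mul, map_sub, map_mul, map_rescale, map_rescale, map_rescale, map_fst_mul,
    map_fst_mul, map_add, map_mul, PowerSeries.map_C, PowerSeries.map_C, map_pow] at h2
  exact h2

end

section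
variable {k : Type} [Field k] [Algebra k ℂ] {n : ℕ}

/-- the reduced form at a point -/
def RedAt (f : MvPolynomial (Fin n) k) (K : Type) [Field K] [Algebra k K] (x : Fin n → K) :
    Prop :=
  ∃ S : Finset (ℤ × ℤ), (∀ p ∈ S, RR (map (algebraMap k ℂ) f) p) ∧
    fst' K * zeta (map (algebraMap k K) f) x ∈ ratRing K S

/-- the strong form at a point -/
def StrAt (f : MvPolynomial (Fin n) k) (K : Type) [Field K] [Algebra k K] (x : Fin n → K) :
    Prop :=
  ∃ S : Finset (ℤ × ℤ), (∀ p ∈ S, RT (map (algebraMap k ℂ) f) p) ∧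
    zeta (map (algebraMap k K) f) x ∈ ratRing K S

/-- the monodromy form at a point -/
def WkAt (f : MvPolynomial (Fin n) k) (K : Type) [Field K] [Algebra k K] (x : Fin n → K) :
    Prop :=
  ∃ S : Finset (ℤ × ℤ), (∀ p ∈ S, RW (map (algebraMap k ℂ) f) p) ∧
    zeta (map (algebraMap k K) f) x ∈ ratRing K S

/-- the strong form after a ring homomorphism -/
def LocAt (f : MvPolynomial (Fin n) k) (K : Type) [Field K] [Algebra k K] {R : Type} [CommRing R]
    (ψ : MK K →+* R) (x : Fin n → K) : Prop :=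
  ∃ S : Finset (ℤ × ℤ), (∀ p ∈ S, RT (map (algebraMap k ℂ) f) p) ∧
    PowerSeries.map ψ (zeta (map (algebraMap k K) f) x) ∈ rat (LR ψ) S

variable {K : Type} [Field K] [Algebra k K]

theorem ratRing_eq (S : Set (ℤ × ℤ)) : ratRing K S = rat (Lu K) S := rfl

theorem fst_eq : fst' K = den (Lu K) (-1, 1) := by
  have h := map_fst (K := K) (RingHom.id (MK K))
  rw [PowerSeries.map_id] at h
  exact h

theorem map_zero_deg {f : MvPolynomial (Fin n) k} (hf : f.totalDegree ≠ 0) :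
    (map (algebraMap k ℂ) f).totalDegree ≠ 0 := by
  rwa [deg_map]

theorem cz (k : Type) [Field k] [Algebra k ℂ] : CharZero k :=
  (algebraMap k ℂ).charZero

theorem czK (k : Type) [Field k] [Algebra k ℂ] (K : Type) [Field K] [Algebra k K] : CharZero K :=
  have := cz k
  charZero_of_injective_algebraMap (algebraMap k K).injective

theorem zeta_triv (f : MvPolynomial (Fin n) k) (x : Fin n → K)
    (h : f.totalDegree = 0 ∨ eval x (map (algebraMap k K) f) ≠ 0) :
    zeta (map (algebraMap k K) f) x = 0 := by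
  have := czK k K
  rcases h with h | h
  · exact zeta_const _ x (by rw [deg_map, h])
  · exact zeta_off _ x h

theorem red_strong {f : MvPolynomial (Fin n) k} {x : Fin n → K} (h : RedAt f K x) :
    StrAt f K x := by
  classical
  by_cases hf : f.totalDegree = 0
  · refine ⟨∅, by simp, ?_⟩
    rw [zeta_triv f x (Or.inl hf)]
    exact (ratRing K _).zero_mem
  obtain ⟨S, hS, hz⟩ := h
  refine ⟨insert (-1, 1) S, ?_, ?_⟩
  · intro p hp
    rcases Finset.mem_insert.1 hp with rfl | hp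
    · exact rt_neg (map_zero_deg hf)
    · exact rr_rt (map_zero_deg hf) (hS p hp)
  · rw [fst_eq] at hz
    have h1 : zeta (map (algebraMap k K) f) x = geoU (Lu K) (-1) 1 *
        (den (Lu K) (-1, 1) * zeta (map (algebraMap k K) f) x) := by
      have h2 := den_geo (u := Lu K) (p := (-1, 1)) one_pos
      simp only at h2
      linear_combination (-zeta (map (algebraMap k K) f) x) * h2
    rw [h1, ratRing_eq]
    refine (rat (Lu K) _).mul_mem (geo_mem_rat (p := (-1, 1)) (by simp)) (rat_mono ?_ hz)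
    intro p hp
    simp only [Finset.coe_insert]
    exact Or.inr hp

theorem red_iso (φ : MvPolynomial (Fin n) k ≃ₐ[k] MvPolynomial (Fin n) k)
    {f : MvPolynomial (Fin n) k} {x : Fin n → K} (h : RedAt (φ f) K (mvk K φ x)) :
    RedAt f K x := by
  have := czK k K
  obtain ⟨S, hS, hz⟩ := h
  obtain ⟨φ', hφ'⟩ := Pool.Agent.Y405.MS.bc k ℂ φ
  refine ⟨S, fun p hp => ?_, ?_⟩
  · have h1 := hS p hp
    rw [← hφ'] at h1
    exact rr_iso φ' h1
  · rwa [zeta_k] at hz

theorem wk_iso (φ : MvPolynomial (Fin n) k ≃ₐ[k] MvPolynomial (Fin n) k)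
    {f : MvPolynomial (Fin n) k} {x : Fin n → K} (h : WkAt (φ f) K (mvk K φ x)) :
    WkAt f K x := by
  have := czK k K
  obtain ⟨S, hS, hz⟩ := h
  obtain ⟨φ', hφ'⟩ := Pool.Agent.Y405.MS.bc k ℂ φ
  refine ⟨S, fun p hp => ?_, ?_⟩
  · have h1 := hS p hp
    rw [← hφ'] at h1
    exact rw_iso φ' h1
  · rwa [zeta_k] at hz

theorem loc_iso {R : Type} [CommRing R] (ψ : MK K →+* R)
    (φ : MvPolynomial (Fin n) k ≃ₐ[k] MvPolynomial (Fin n) k)
    {f : MvPolynomial (Fin n) k} {x : Fin n → K} (h : LocAt (φ f) K ψ (mvk K φ x)) :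
    LocAt f K ψ x := by
  have := czK k K
  obtain ⟨S, hS, hz⟩ := h
  obtain ⟨φ', hφ'⟩ := Pool.Agent.Y405.MS.bc k ℂ φ
  refine ⟨S, fun p hp => ?_, ?_⟩
  · have h1 := hS p hp
    rw [← hφ'] at h1
    exact rt_iso φ' h1
  · rwa [zeta_k] at hz

/-- **Descent, reduced form.** -/
theorem red_descent {f : MvPolynomial (Fin n) k} {x : Fin n → K} (κ : ℕ)
    (h1 : RedAt (itr f κ) K (xitr x κ)) (h2 : RedAt (itr f (κ + 1)) K (xitr x (κ + 1))) :
    RedAt f K x := by
  have := czK k K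
  by_cases h0 : f.totalDegree = 0 ∨ eval x (map (algebraMap k K) f) ≠ 0
  · refine ⟨∅, by simp, ?_⟩
    rw [zeta_triv f x h0, mul_zero]
    exact (ratRing K _).zero_mem
  push Not at h0
  obtain ⟨hf, hx⟩ := h0
  obtain ⟨S1, a1, b1⟩ := h1
  obtain ⟨S2, a2, b2⟩ := h2
  rw [map_itr] at a1 a2 b1 b2
  have hd : (map (algebraMap k ℂ) f).totalDegree ≠ 0 := map_zero_deg hf
  have hr := rec_zeta (RingHom.id (MK K)) (map (algebraMap k K) f) x hx
  have hL : LR (RingHom.id (MK K)) = Lu K := by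
    ext
    rfl
  rw [hL] at hr
  simp only [PowerSeries.map_id] at hr
  rw [fst_eq, ratRing_eq] at b1 b2
  have h3 := coreA κ hr (T := {p | RR (map (algebraMap k ℂ) f) p})
    (fun p hp => ⟨(a1 p hp).1, rr_itr hd κ (a1 p hp)⟩)
    (fun p hp => ⟨(a2 p hp).1, rr_itr hd (κ + 1) (a2 p hp)⟩) b1 b2
  obtain ⟨T, hT, h4⟩ := exists_finset h3
  refine ⟨T, hT, ?_⟩
  rw [fst_eq, ratRing_eq]
  exact h4

/-- **Descent, monodromy form.** -/
theorem wk_descent {f : MvPolynomial (Fin n) k} {x : Fin n → K} (κ : ℕ)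
    (h1 : WkAt (itr f κ) K (xitr x κ)) (h2 : WkAt (itr f (κ + 1)) K (xitr x (κ + 1))) :
    WkAt f K x := by
  classical
  have := czK k K
  by_cases h0 : f.totalDegree = 0 ∨ eval x (map (algebraMap k K) f) ≠ 0
  · refine ⟨∅, by simp, ?_⟩
    rw [zeta_triv f x h0]
    exact (ratRing K _).zero_mem
  push Not at h0
  obtain ⟨hf, hx⟩ := h0
  obtain ⟨S1, a1, b1⟩ := h1
  obtain ⟨S2, a2, b2⟩ := h2
  rw [map_itr] at a1 a2 b1 b2
  have hd : (map (algebraMap k ℂ) f).totalDegree ≠ 0 := map_zero_deg hf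
  have hr := rec_zeta (RingHom.id (MK K)) (map (algebraMap k K) f) x hx
  have hL : LR (RingHom.id (MK K)) = Lu K := by
    ext
    rfl
  rw [hL] at hr
  simp only [PowerSeries.map_id] at hr
  rw [ratRing_eq] at b1 b2
  have h3 := coreA κ hr (T := {p | RW (map (algebraMap k ℂ) f) p})
    (fun p hp => ⟨(a1 p hp).1, rw_shU _ (rw_itr hd κ (a1 p hp))⟩)
    (fun p hp => ⟨(a2 p hp).1, rw_shU _ (rw_itr hd (κ + 1) (a2 p hp))⟩)
    ((rat (Lu K) _).mul_mem (den_mem_rat _ _) b1) ((rat (Lu K) _).mul_mem (den_mem_rat _ _) b2)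
  obtain ⟨T, hT, h4⟩ := exists_finset h3
  refine ⟨insert (-1, 1) T, ?_, ?_⟩
  · intro p hp
    rcases Finset.mem_insert.1 hp with rfl | hp
    · exact rw_neg hd
    · exact hT p hp
  · set Z := zeta (map (algebraMap k K) f) x with hZ
    have h1 : Z = geoU (Lu K) (-1) 1 * (den (Lu K) (-1, 1) * Z) := by
      have h2 := den_geo (u := Lu K) (p := (-1, 1)) one_pos
      simp only at h2
      linear_combination (-Z) * h2
    rw [h1, ratRing_eq]
    refine (rat (Lu K) _).mul_mem (geo_mem_rat (p := (-1, 1)) (by simp)) (rat_mono ?_ h4)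
    intro p hp
    simp only [Finset.coe_insert]
    exact Or.inr hp

/-- **Descent, localised form.** -/
theorem loc_descent {R : Type} [CommRing R] {ψ : MK K →+* R} (hψ : Sep (LR ψ))
    {f : MvPolynomial (Fin n) k} {x : Fin n → K} (κ : ℕ)
    (h : ∀ i < 4, LocAt (itr f (κ + i)) K ψ (xitr x (κ + i))) : LocAt f K ψ x := by
  classical
  have := czK k K
  by_cases h0 : f.totalDegree = 0 ∨ eval x (map (algebraMap k K) f) ≠ 0
  · refine ⟨∅, by simp, ?_⟩
    rw [zeta_triv f x h0, map_zero]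
    exact (rat (LR ψ) _).zero_mem
  push Not at h0
  obtain ⟨hf, hx⟩ := h0
  have hd : (map (algebraMap k ℂ) f).totalDegree ≠ 0 := map_zero_deg hf
  have h' : ∀ i : ℕ, ∃ S : Finset (ℤ × ℤ), i < 4 →
      (∀ p ∈ S, RT (itr (map (algebraMap k ℂ) f) (κ + i)) p) ∧
      PowerSeries.map ψ (zeta (itr (map (algebraMap k K) f) (κ + i)) (xitr x (κ + i))) ∈
        rat (LR ψ) S := by
    intro i
    by_cases hi : i < 4
    · obtain ⟨S, a, b⟩ := h i hi
      rw [map_itr] at a b
      exact ⟨S, fun _ => ⟨a, b⟩⟩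
    · exact ⟨∅, fun h => absurd h hi⟩
  choose S hS using h'
  have h3 := coreB hψ κ (rec_zeta ψ (map (algebraMap k K) f) x hx)
    (G := {p | RR (map (algebraMap k ℂ) f) p}) (fun i => (S i : Set (ℤ × ℤ)))
    (fun i hi p hp => ⟨((hS i hi).1 p hp).1, (rt_cases ((hS i hi).1 p hp)).imp id
      fun h => rr_itr hd (κ + i) h⟩) (fun i hi => (hS i hi).2)
  obtain ⟨T, hT, h4⟩ := exists_finset h3
  refine ⟨insert (-1, 1) T, ?_, ?_⟩
  · intro p hp
    rcases Finset.mem_insert.1 hp with rfl | hp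
    · exact rt_neg hd
    · exact rr_rt hd (hT p hp)
  · set Z := PowerSeries.map ψ (zeta (map (algebraMap k K) f) x) with hZ
    have h1 : Z = geoU (LR ψ) (-1) 1 * (den (LR ψ) (-1, 1) * Z) := by
      have h2 := den_geo (u := LR ψ) (p := (-1, 1)) one_pos
      simp only at h2
      linear_combination (-Z) * h2
    rw [h1]
    refine (rat (LR ψ) _).mul_mem (geo_mem_rat (p := (-1, 1)) (by simp)) (rat_mono ?_ h4)
    intro p hp
    simp only [Finset.coe_insert]
    exact Or.inr hp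

/-- **Every polynomial.** -/
theorem every (f : MvPolynomial (Fin n) k) :
    ∃ (κ : ℕ) (φ : MvPolynomial (Fin (n + 2 * κ)) k ≃ₐ[k] MvPolynomial (Fin (n + 2 * κ)) k),
      (φ (itr f κ)).totalDegree ≤ 3 ∧
      ∀ (K : Type) [Field K] [Algebra k K] (x : Fin n → K),
        (WkAt (φ (itr f κ)) K (mvk K φ (xitr x κ)) →
          WkAt (addyz (φ (itr f κ))) K (ext0 (mvk K φ (xitr x κ))) → WkAt f K x) ∧
        (RedAt (φ (itr f κ)) K (mvk K φ (xitr x κ)) →
          RedAt (addyz (φ (itr f κ))) K (ext0 (mvk K φ (xitr x κ))) → RedAt f K x) ∧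
        ∀ (R : Type) [CommRing R] (ψ : MK K →+* R), Sep (LR ψ) →
          (∀ i < 4, LocAt (itr (φ (itr f κ)) i) K ψ (xitr (mvk K φ (xitr x κ)) i)) →
          LocAt f K ψ x := by
  obtain ⟨κ, _, φ, hφ⟩ := exists_cub (mu f) f le_rfl
  refine ⟨κ, φ, hφ, ?_⟩
  intro K _ _ x
  refine ⟨?_, ?_, ?_⟩
  · intro h1 h2
    refine wk_descent κ (wk_iso φ h1) ?_
    refine wk_iso (n := n + 2 * κ + 2) (extE φ) (f := addyz (itr f κ)) (x := ext0 (xitr x κ)) ?_
    rw [extE_addyz, mvk_ext]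
    exact h2
  · intro h1 h2
    refine red_descent κ (red_iso φ h1) ?_
    refine red_iso (n := n + 2 * κ + 2) (extE φ) (f := addyz (itr f κ)) (x := ext0 (xitr x κ)) ?_
    rw [extE_addyz, mvk_ext]
    exact h2
  · intro R _ ψ hψ h
    refine loc_descent hψ κ ?_
    intro i hi
    interval_cases i
    · exact loc_iso ψ φ (h 0 (by norm_num))
    · refine loc_iso (n := n + 2 * κ + 2) ψ (extE φ) (f := addyz (itr f κ))
        (x := ext0 (xitr x κ)) ?_
      rw [extE_addyz, mvk_ext]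
      exact h 1 (by norm_num)
    · refine loc_iso (n := n + 2 * κ + 2 + 2) ψ (extE (extE φ)) (f := addyz (addyz (itr f κ)))
        (x := ext0 (ext0 (xitr x κ))) ?_
      rw [extE_addyz, extE_addyz, mvk_ext, mvk_ext]
      exact h 2 (by norm_num)
    · refine loc_iso (n := n + 2 * κ + 2 + 2 + 2) ψ (extE (extE (extE φ)))
        (f := addyz (addyz (addyz (itr f κ)))) (x := ext0 (ext0 (ext0 (xitr x κ)))) ?_
      rw [extE_addyz, extE_addyz, extE_addyz, mvk_ext, mvk_ext, mvk_ext]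
      exact h 3 (by norm_num)

omit [Algebra k ℂ] in
theorem deg3_itr (f : MvPolynomial (Fin n) k) (h : f.totalDegree ≤ 3) (j : ℕ) :
    (itr f j).totalDegree ≤ 3 := by
  induction j with
  | zero => exact h
  | succ j ih => exact deg3_addyz (itr f j) ih

/-- the monodromy form for all polynomials -/
theorem all_wk (h : ∀ (m : ℕ) (g : MvPolynomial (Fin m) k), g.totalDegree ≤ 3 →
    ∀ P : Fin m → K, WkAt g K P) (f : MvPolynomial (Fin n) k) (x : Fin n → K) :
    WkAt f K x := by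
  obtain ⟨κ, φ, hφ, h1⟩ := every f
  exact (h1 K x).1 (h _ _ hφ _) (h _ _ (deg3_addyz _ hφ) _)

/-- the reduced form for all polynomials -/
theorem all_red (h : ∀ (m : ℕ) (g : MvPolynomial (Fin m) k), g.totalDegree ≤ 3 →
    ∀ P : Fin m → K, RedAt g K P) (f : MvPolynomial (Fin n) k) (x : Fin n → K) :
    RedAt f K x := by
  obtain ⟨κ, φ, hφ, h1⟩ := every f
  exact (h1 K x).2.1 (h _ _ hφ _) (h _ _ (deg3_addyz _ hφ) _)

/-- the localised form for all polynomials -/
theorem all_loc {R : Type} [CommRing R] {ψ : MK K →+* R} (hψ : Sep (LR ψ))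
    (h : ∀ (m : ℕ) (g : MvPolynomial (Fin m) k), g.totalDegree ≤ 3 →
    ∀ P : Fin m → K, LocAt g K ψ P) (f : MvPolynomial (Fin n) k) (x : Fin n → K) :
    LocAt f K ψ x := by
  obtain ⟨κ, φ, hφ, h1⟩ := every f
  exact (h1 K x).2.2 R ψ hψ fun i _ => h _ _ (deg3_itr _ hφ i) _

end

end Pool.Agent.J4.H25.MC
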