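import Pool.Agent.Y229.MS.Step
import Pool.Agent.Y366.MS.OneA
import Pool.Agent.Y971.MS.One
import Pool.Agent.Y812.MS.Two

set_option autoImplicit false

/-!
# The jets of `f + y z` with origin at `y = z = 0`
-/

namespace Pool.Agent.J4.H25.MC

open MvPolynomial Pool.Agent.W428.MOT
open Pool.Agent.W375.MG (JetG zetaG Good)
open Pool.Agent.Y229.MS
open Pool.Agent.Y971.MS (constr_jet)

section
variable {K : Type} [Field K] {n : ℕ}

/-- the origins `(x, 0, 0)` -/
def W0 (W : Set (Pt K (Fin n))) : Set (Pt K (Fin (n + 2))) :=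
  {w | (fun i => w (Fin.castAdd 2 i)) ∈ W ∧ w (Fin.natAdd n 0) = 0 ∧ w (Fin.natAdd n 1) = 0}

theorem constr_W0 {W : Set (Pt K (Fin n))} (hW : Constr W) : Constr (W0 W) := by
  unfold W0
  exact Constr.and (hW.preimage _ fun i => IsPF.coord _)
    (Constr.and (Constr.eqz (IsPF.coord _)) (Constr.eqz (IsPF.coord _)))

theorem W0_sub (W : Set (Pt K (Fin n))) : W0 W ⊆ Wyz W := fun _ h => h.1

/-- the jets of `f + y z` -/
abbrev JJ (f : MvPolynomial (Fin n) K) (W : Set (Pt K (Fin n))) (E : Set (AlgebraicClosure K))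
    (N : ℕ) : Set (Pt K (Fin (n + 2) × Fin (N + 1))) := JetG (addyz f) (Wyz W) E N

theorem constr_JJ (f : MvPolynomial (Fin n) K) {W : Set (Pt K (Fin n))} (hW : Constr W)
    {E : Set (AlgebraicClosure K)} (hE : CE E) (N : ℕ) : Constr (JJ f W E N) :=
  constr_jet (addyz f) (constr_Wyz hW) hE N

/-- the constant term of `g (arc)` -/
theorem coeff_zero_aeval {m N : ℕ} (g : MvPolynomial (Fin m) K)
    (w : Pt K (Fin m × Fin (N + 1))) :
    PowerSeries.coeff 0 (aeval (arc w) g) = aeval (fun i => w (i, 0)) g := by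
  have h1 : (aeval (fun i => w (i, 0)) g : AlgebraicClosure K) =
      PowerSeries.constantCoeff (aeval (arc w) g) := by
    have h2 : ∀ g : MvPolynomial (Fin m) K, (aeval (fun i => w (i, 0)) g : AlgebraicClosure K) =
        PowerSeries.constantCoeff (aeval (arc w) g) := by
      intro g
      induction g using MvPolynomial.induction_on with
      | C c =>
        rw [← MvPolynomial.algebraMap_eq, AlgHom.commutes, AlgHom.commutes,
          PowerSeries.algebraMap_apply]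
        simp
      | add p q hp hq => rw [map_add, map_add, map_add, hp, hq]
      | mul_X p j hp =>
        rw [map_mul, map_mul, map_mul, hp, aeval_X, aeval_X]
        congr 1
    exact h2 g
  rw [h1, PowerSeries.coeff_zero_eq_constantCoeff_apply]

/-- the product of the constant terms of `y` and `z` -/
theorem yz_zero (f : MvPolynomial (Fin n) K) {W : Set (Pt K (Fin n))}
    (hf : ∀ x ∈ W, aeval x f = 0) {E : Set (AlgebraicClosure K)} {N : ℕ} (hN : 1 ≤ N)
    {w : Pt K (Fin (n + 2) × Fin (N + 1))} (hw : w ∈ JJ f W E N) :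
    w (Fin.natAdd n 0, 0) = 0 ∨ w (Fin.natAdd n 1, 0) = 0 := by
  have h1 := hw.2.1 0 (by omega)
  rw [coeff_zero_aeval, Pool.Agent.Y971.MS.aeval_addyz] at h1
  have h2 : aeval (fun i => w (Fin.castAdd 2 i, 0)) f = 0 := hf _ hw.1
  rw [h2, zero_add] at h1
  exact mul_eq_zero.1 h1

/-- exchange `y` and `z` -/
def sw (n : ℕ) : Equiv.Perm (Fin (n + 2)) := Equiv.swap (Fin.natAdd n 0) (Fin.natAdd n 1)

theorem sw_cast (i : Fin n) : sw n (Fin.castAdd 2 i) = Fin.castAdd 2 i := by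
  unfold sw
  refine Equiv.swap_apply_of_ne_of_ne ?_ ?_
  · intro h
    have := congrArg Fin.val h
    simp only [Fin.val_castAdd, Fin.val_natAdd] at this
    have := i.2
    omega
  · intro h
    have := congrArg Fin.val h
    simp only [Fin.val_castAdd, Fin.val_natAdd] at this
    have := i.2
    omega

theorem sw_0 : sw n (Fin.natAdd n 0) = Fin.natAdd n 1 := Equiv.swap_apply_left _ _
theorem sw_1 : sw n (Fin.natAdd n 1) = Fin.natAdd n 0 := Equiv.swap_apply_right _ _

theorem sw_sw (i : Fin (n + 2)) : sw n (sw n i) = i := by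
  unfold sw
  simp

/-- exchange `y` and `z` in the jets -/
def swJ {N : ℕ} (w : Pt K (Fin (n + 2) × Fin (N + 1))) : Pt K (Fin (n + 2) × Fin (N + 1)) :=
  fun p => w (sw n p.1, p.2)

theorem swJ_swJ {N : ℕ} (w : Pt K (Fin (n + 2) × Fin (N + 1))) : swJ (swJ w) = w := by
  funext p
  simp only [swJ, sw_sw]

theorem mem_swJ (f : MvPolynomial (Fin n) K) {W : Set (Pt K (Fin n))}
    {E : Set (AlgebraicClosure K)} {N : ℕ} {w : Pt K (Fin (n + 2) × Fin (N + 1))}
    (hw : w ∈ JJ f W E N) : swJ w ∈ JJ f W E N := by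
  have h1 : aeval (arc (swJ w)) (addyz f) = aeval (arc w) (addyz f) := by
    rw [Pool.Agent.Y971.MS.aeval_addyz, Pool.Agent.Y971.MS.aeval_addyz]
    have h2 : ∀ i, arc (swJ w) i = arc w (sw n i) := fun i => rfl
    rw [h2, h2, sw_0, sw_1, mul_comm]
    congr 2
    congr 1
    funext i
    rw [h2, sw_cast]
  refine ⟨?_, ?_, ?_⟩
  · have h3 : (fun i => (fun i => swJ w (i, 0)) (Fin.castAdd 2 i)) =
        fun i => (fun i => w (i, 0)) (Fin.castAdd 2 i) := by
      funext i
      simp only [swJ, sw_cast]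
    show (fun i => (fun i => swJ w (i, 0)) (Fin.castAdd 2 i)) ∈ W
    rw [h3]
    exact hw.1
  · rw [h1]
    exact hw.2.1
  · rw [h1]
    exact hw.2.2

theorem constr_Yi (i N : ℕ) : Constr (Yi (K := K) n i N) := by
  unfold Yi
  exact (Constr.all fun j => Constr.imp' fun _ => Constr.eqz (IsPF.coord _)).and
    (Constr.all fun j => Constr.imp' fun _ => (Constr.eqz (IsPF.coord _)).not)

theorem mem_Yi0 {N : ℕ} (w : Pt K (Fin (n + 2) × Fin (N + 1))) :
    w ∈ Yi n 0 N ↔ w (Fin.natAdd n 0, 0) ≠ 0 := by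
  constructor
  · intro h
    exact h.2 0 rfl
  · intro h
    refine ⟨fun j hj => absurd hj (Nat.not_lt_zero _), fun j hj => ?_⟩
    have : j = 0 := Fin.ext hj
    rw [this]
    exact h

theorem chi_empty {R : Type} [CommRing R] (M : Meas K R) (ι : Type) [Fintype ι] :
    M.χ ι (∅ : Set (Pt K ι)) = 0 := by
  have hc : Constr (∅ : Set (Pt K ι)) := by
    have := (Constr.univ (K := K) (ι := ι)).compl
    rwa [Set.compl_univ] at this
  have h1 := M.add ∅ ∅ hc hc (Set.disjoint_empty _)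
  rw [Set.union_empty] at h1
  exact left_eq_add.1 h1

/-- **The class of the jets of `f + y z` with origin at `y = z = 0`.** -/
theorem onePt {R : Type} [CommRing R] (M : Meas K R) (f : MvPolynomial (Fin n) K)
    {W : Set (Pt K (Fin n))} (hW : Constr W) (hf : ∀ x ∈ W, aeval x f = 0)
    {E : Set (AlgebraicClosure K)} (hE : CE E) {N : ℕ} (hN : 1 ≤ N) :
    M.χ _ (JetG (addyz f) (W0 W) E N) = M.χ _ (JetG f W E N) * M.L ^ (N + 1) +
      M.χ (Fin 1) {a | a 0 ∈ E} * (M.L - 1) * M.L ^ N *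
        ∑ i ∈ (Finset.range (N + 1)).filter (fun i => 2 ≤ i), M.χ _ (Tl f W i N) := by
  classical
  have h1 := Pool.Agent.Y971.MS.one Pool.Agent.Y366.MS.onea K R M f W E hW hE N
  have h2 := Pool.Agent.Y366.MS.onea K R M f W E hW hE 0 N (Nat.zero_le _)
  have cJ := constr_JJ f hW hE N
  have cY := constr_Yi (K := K) (n := n) 0 N
  set J := JJ f W E N with hJ
  set Z2 : Set (Pt K (Fin (n + 2) × Fin (N + 1))) := {w | w (Fin.natAdd n 1, 0) ≠ 0} with hZ2
  have cZ : Constr Z2 := (Constr.eqz (IsPF.coord _)).not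
  set J0 := JetG (addyz f) (W0 W) E N with hJ0
  have cJ0 : Constr J0 := constr_jet (addyz f) (constr_W0 hW) hE N
  have e1 : M.χ _ (J ∩ Z2) = M.χ _ (J ∩ Yi n 0 N) := by
    refine M.iso _ _ (cJ.inter cZ) (cJ.inter cY) swJ swJ
      (regularOn_poly (fun p => IsPF.coord _) _) (regularOn_poly (fun p => IsPF.coord _) _)
      ?_ ?_ (fun z _ => swJ_swJ z) (fun z _ => swJ_swJ z)
    · rintro w ⟨hw1, hw2⟩
      refine ⟨mem_swJ f hw1, (mem_Yi0 _).2 ?_⟩
      simp only [swJ, sw_0]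
      exact hw2
    · rintro w ⟨hw1, hw2⟩
      refine ⟨mem_swJ f hw1, ?_⟩
      show swJ w (Fin.natAdd n 1, 0) ≠ 0
      simp only [swJ, sw_1]
      exact (mem_Yi0 w).1 hw2
  have e2 : J = J0 ∪ ((J ∩ Yi n 0 N) ∪ (J ∩ Z2)) := by
    ext w
    constructor
    · intro hw
      by_cases hy : w (Fin.natAdd n 0, 0) = 0
      · by_cases hz : w (Fin.natAdd n 1, 0) = 0
        · exact Or.inl ⟨⟨hw.1, hy, hz⟩, hw.2⟩
        · exact Or.inr (Or.inr ⟨hw, hz⟩)
      · exact Or.inr (Or.inl ⟨hw, (mem_Yi0 w).2 hy⟩)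
    · rintro (hw | hw | hw)
      · exact ⟨hw.1.1, hw.2⟩
      · exact hw.1
      · exact hw.1
  have d1 : Disjoint (J ∩ Yi n 0 N) (J ∩ Z2) := by
    rw [Set.disjoint_left]
    rintro w ⟨hw, hw1⟩ ⟨-, hw2⟩
    rcases yz_zero f hf hN hw with h | h
    · exact (mem_Yi0 w).1 hw1 h
    · exact hw2 h
  have d2 : Disjoint J0 ((J ∩ Yi n 0 N) ∪ (J ∩ Z2)) := by
    rw [Set.disjoint_left]
    rintro w ⟨⟨-, hy, hz⟩, -⟩ (⟨-, hw⟩ | ⟨-, hw⟩)
    · exact (mem_Yi0 w).1 hw hy
    · exact hw hz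
  have e3 : M.χ _ J = M.χ _ J0 + (M.χ _ (J ∩ Yi n 0 N) + M.χ _ (J ∩ Yi n 0 N)) := by
    conv_lhs => rw [e2]
    rw [M.add _ _ cJ0 ((cJ.inter cY).union (cJ.inter cZ)) d2,
      M.add _ _ (cJ.inter cY) (cJ.inter cZ) d1, e1]
  have e4 : Tl f W 1 N = Tl f W 0 N := by
    ext z
    refine and_congr_right fun hz => ⟨fun _ j hj => absurd hj (Nat.not_lt_zero _), fun _ j hj => ?_⟩
    have : j = 0 := by omega
    rw [this, coeff_zero_aeval]
    exact hf _ hz
  have e5 : ∑ i ∈ Finset.range (N + 1), M.χ _ (Tl f W i N) =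
      M.χ _ (Tl f W 0 N) + M.χ _ (Tl f W 0 N) +
        ∑ i ∈ (Finset.range (N + 1)).filter (fun i => 2 ≤ i), M.χ _ (Tl f W i N) := by
    rw [← Finset.sum_filter_add_sum_filter_not (Finset.range (N + 1)) (fun i => 2 ≤ i), add_comm]
    congr 1
    have h3 : (Finset.range (N + 1)).filter (fun i => ¬ 2 ≤ i) = {0, 1} := by
      ext i
      simp only [Finset.mem_filter, Finset.mem_range, Finset.mem_insert, Finset.mem_singleton]
      omega
    rw [h3, Finset.sum_pair (by norm_num), e4]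
  rw [h1, h2, e5] at e3
  linear_combination -e3

end

end Pool.Agent.J4.H25.MC
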