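import Mathlib

set_option autoImplicit false

/-!
# Rational power series with denominators `1 - u ^ a T ^ b`
-/

namespace Pool.Agent.J4.H25.MC

section
variable {R : Type} [CommRing R]

/-- `1 - u ^ a T ^ b` -/
noncomputable def den (u : Rˣ) (p : ℤ × ℤ) : PowerSeries R :=
  1 - PowerSeries.C ((u ^ p.1 : Rˣ) : R) * PowerSeries.X ^ p.2.toNat

/-- The power series `1 / (1 - u ^ a T ^ b)`, for `b > 0`. -/
noncomputable def geoU (u : Rˣ) (a b : ℤ) : PowerSeries R :=
  PowerSeries.invOfUnit (1 - PowerSeries.C ((u ^ a : Rˣ) : R) * PowerSeries.X ^ b.toNat) 1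

/-- The subring `R[T, 1 / (1 - u ^ a T ^ b)]_{(a,b) ∈ S}` of `R[[T]]`. -/
noncomputable def rat (u : Rˣ) (S : Set (ℤ × ℤ)) : Subalgebra R (PowerSeries R) :=
  Algebra.adjoin R ({PowerSeries.X} ∪ {g | ∃ p ∈ S, g = geoU u p.1 p.2})

variable {u : Rˣ}

theorem den_geo {p : ℤ × ℤ} (hp : 0 < p.2) : den u p * geoU u p.1 p.2 = 1 := by
  unfold den geoU
  refine PowerSeries.mul_invOfUnit _ _ ?_
  have h : p.2.toNat ≠ 0 := by omega
  rw [map_sub, map_mul, map_pow, PowerSeries.constantCoeff_X, zero_pow h, mul_zero, map_one,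
    sub_zero, Units.val_one]

theorem X_mem_rat (S : Set (ℤ × ℤ)) : (PowerSeries.X : PowerSeries R) ∈ rat u S :=
  Algebra.subset_adjoin (Or.inl rfl)

theorem C_mem_rat (a : R) (S : Set (ℤ × ℤ)) : (PowerSeries.C a : PowerSeries R) ∈ rat u S :=
  (rat u S).algebraMap_mem a

theorem geo_mem_rat {S : Set (ℤ × ℤ)} {p : ℤ × ℤ} (hp : p ∈ S) : geoU u p.1 p.2 ∈ rat u S :=
  Algebra.subset_adjoin (Or.inr ⟨p, hp, rfl⟩)

theorem den_mem_rat (p : ℤ × ℤ) (S : Set (ℤ × ℤ)) : den u p ∈ rat u S :=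
  (rat u S).sub_mem (rat u S).one_mem
    ((rat u S).mul_mem (C_mem_rat _ _) ((rat u S).pow_mem (X_mem_rat _) _))

theorem rat_mono {S T : Set (ℤ × ℤ)} (h : S ⊆ T) {V : PowerSeries R} (hV : V ∈ rat u S) :
    V ∈ rat u T := by
  refine Algebra.adjoin_mono ?_ hV
  rintro g (hg | ⟨p, hp, rfl⟩)
  · exact Or.inl hg
  · exact Or.inr ⟨p, h hp, rfl⟩

theorem exists_finset {S : Set (ℤ × ℤ)} {V : PowerSeries R} (hV : V ∈ rat u S) :
    ∃ T : Finset (ℤ × ℤ), (∀ p ∈ T, p ∈ S) ∧ V ∈ rat u (T : Set (ℤ × ℤ)) := by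
  classical
  unfold rat at hV
  refine Algebra.adjoin_induction (p := fun V _ => ∃ T : Finset (ℤ × ℤ), (∀ p ∈ T, p ∈ S) ∧
    V ∈ rat u (T : Set (ℤ × ℤ))) ?_ ?_ ?_ ?_ hV
  · rintro x (hx | ⟨p, hp, rfl⟩)
    · rw [Set.mem_singleton_iff] at hx
      rw [hx]
      exact ⟨∅, by simp, X_mem_rat _⟩
    · exact ⟨{p}, by simpa using hp, geo_mem_rat (by simp)⟩
  · intro r
    exact ⟨∅, by simp, C_mem_rat r _⟩
  · rintro x y _ _ ⟨T1, h1, h2⟩ ⟨T2, h3, h4⟩
    refine ⟨T1 ∪ T2, ?_, (rat u _).add_mem (rat_mono (by simp) h2) (rat_mono (by simp) h4)⟩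
    intro p hp
    rcases Finset.mem_union.1 hp with h | h
    · exact h1 p h
    · exact h3 p h
  · rintro x y _ _ ⟨T1, h1, h2⟩ ⟨T2, h3, h4⟩
    refine ⟨T1 ∪ T2, ?_, (rat u _).mul_mem (rat_mono (by simp) h2) (rat_mono (by simp) h4)⟩
    intro p hp
    rcases Finset.mem_union.1 hp with h | h
    · exact h1 p h
    · exact h3 p h

/-- `1 - u ^ a T ^ b` as an element of the subring -/
noncomputable def denA (u : Rˣ) (S : Set (ℤ × ℤ)) (p : ℤ × ℤ) : rat u S := ⟨den u p, den_mem_rat p S⟩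

/-- clear the denominators in `B` -/
theorem clear {S B : Set (ℤ × ℤ)} (hB : ∀ p ∈ B, 0 < p.2) {V : PowerSeries R}
    (hV : V ∈ rat u (S ∪ B)) :
    ∃ D ∈ Submonoid.closure (denA u S '' B), (D : PowerSeries R) * V ∈ rat u S := by
  unfold rat at hV
  refine Algebra.adjoin_induction (p := fun V _ => ∃ D ∈ Submonoid.closure (denA u S '' B),
    (D : PowerSeries R) * V ∈ rat u S) ?_ ?_ ?_ ?_ hV
  · rintro x (hx | ⟨p, hp, rfl⟩)
    · rw [Set.mem_singleton_iff] at hx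
      rw [hx]
      refine ⟨1, Submonoid.one_mem _, ?_⟩
      rw [OneMemClass.coe_one, one_mul]
      exact X_mem_rat _
    · rcases hp with hp | hp
      · refine ⟨1, Submonoid.one_mem _, ?_⟩
        rw [OneMemClass.coe_one, one_mul]
        exact geo_mem_rat hp
      · refine ⟨denA u S p, Submonoid.subset_closure ⟨p, hp, rfl⟩, ?_⟩
        show den u p * geoU u p.1 p.2 ∈ _
        rw [den_geo (hB p hp)]
        exact (rat u S).one_mem
  · intro r
    refine ⟨1, Submonoid.one_mem _, ?_⟩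
    rw [OneMemClass.coe_one, one_mul]
    exact C_mem_rat _ _
  · rintro x y _ _ ⟨D1, h1, h2⟩ ⟨D2, h3, h4⟩
    refine ⟨D1 * D2, Submonoid.mul_mem _ h1 h3, ?_⟩
    have e : ((D1 * D2 : rat u S) : PowerSeries R) * (x + y) =
        (D2 : PowerSeries R) * ((D1 : PowerSeries R) * x) +
          (D1 : PowerSeries R) * ((D2 : PowerSeries R) * y) := by
      rw [MulMemClass.coe_mul]
      ring
    rw [e]
    exact (rat u S).add_mem ((rat u S).mul_mem D2.2 h2) ((rat u S).mul_mem D1.2 h4)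
  · rintro x y _ _ ⟨D1, h1, h2⟩ ⟨D2, h3, h4⟩
    refine ⟨D1 * D2, Submonoid.mul_mem _ h1 h3, ?_⟩
    have e : ((D1 * D2 : rat u S) : PowerSeries R) * (x * y) =
        ((D1 : PowerSeries R) * x) * ((D2 : PowerSeries R) * y) := by
      rw [MulMemClass.coe_mul]
      ring
    rw [e]
    exact (rat u S).mul_mem h2 h4

/-- The powers of `u` are different modulo all maximal ideals: `u ^ i - 1` is a unit for `i ≥ 1`. -/
def Sep (u : Rˣ) : Prop := ∀ i : ℕ, 1 ≤ i → IsUnit ((u : R) ^ i - 1)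

theorem sep_int (hu : Sep u) {m : ℤ} (hm : m ≠ 0) : IsUnit (1 - ((u ^ m : Rˣ) : R)) := by
  rcases lt_or_gt_of_ne hm with h | h
  · have h1 := hu (-m).toNat (by omega)
    have h2 : 1 - ((u ^ m : Rˣ) : R) = ((u ^ m : Rˣ) : R) * ((u : R) ^ (-m).toNat - 1) := by
      have h3 : ((u ^ m : Rˣ) : R) * (u : R) ^ (-m).toNat = 1 := by
        rw [← Units.val_pow_eq_pow_val, ← Units.val_mul, ← zpow_natCast, ← zpow_add]
        have : m + ((-m).toNat : ℤ) = 0 := by omega
        rw [this, zpow_zero, Units.val_one]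
      rw [mul_sub, h3, mul_one]
    rw [h2]
    exact (Units.isUnit _).mul h1
  · have h1 := hu m.toNat (by omega)
    have h2 : 1 - ((u ^ m : Rˣ) : R) = -((u : R) ^ m.toNat - 1) := by
      have h3 : ((u ^ m : Rˣ) : R) = (u : R) ^ m.toNat := by
        rw [← Units.val_pow_eq_pow_val, ← zpow_natCast]
        congr 2
        omega
      rw [h3]
      ring
    rw [h2]
    exact h1.neg

/-- different slopes give comaximal denominators -/
theorem coprime_den (hu : Sep u) {S : Set (ℤ × ℤ)} {p q : ℤ × ℤ} (hp : 0 < p.2) (hq : 0 < q.2)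
    (hne : p.1 * q.2 ≠ q.1 * p.2) : IsCoprime (denA u S p) (denA u S q) := by
  set x : rat u S := ⟨PowerSeries.C ((u ^ p.1 : Rˣ) : R) * PowerSeries.X ^ p.2.toNat,
    (rat u S).mul_mem (C_mem_rat _ _) ((rat u S).pow_mem (X_mem_rat _) _)⟩ with hx
  set y : rat u S := ⟨PowerSeries.C ((u ^ q.1 : Rˣ) : R) * PowerSeries.X ^ q.2.toNat,
    (rat u S).mul_mem (C_mem_rat _ _) ((rat u S).pow_mem (X_mem_rat _) _)⟩ with hy
  have ex : denA u S p = 1 - x := rfl
  have ey : denA u S q = 1 - y := rfl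
  have d1 : (1 - x) ∣ 1 - x ^ q.2.toNat := by
    have := sub_dvd_pow_sub_pow 1 x q.2.toNat
    rwa [one_pow] at this
  have d2 : (1 - y) ∣ 1 - y ^ p.2.toNat := by
    have := sub_dvd_pow_sub_pow 1 y p.2.toNat
    rwa [one_pow] at this
  rw [ex, ey]
  refine IsCoprime.of_isCoprime_of_dvd_left (IsCoprime.of_isCoprime_of_dvd_right ?_ d2) d1
  set m : ℤ := p.1 * q.2 - q.1 * p.2 with hm
  have hm0 : m ≠ 0 := sub_ne_zero.2 hne
  obtain ⟨v, hv⟩ := sep_int hu hm0
  set w : rat u S := ⟨PowerSeries.C ((u ^ m : Rˣ) : R), C_mem_rat _ _⟩ with hw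
  have exy : x ^ q.2.toNat = w * y ^ p.2.toNat := by
    apply Subtype.ext
    show (PowerSeries.C ((u ^ p.1 : Rˣ) : R) * PowerSeries.X ^ p.2.toNat) ^ q.2.toNat =
      PowerSeries.C ((u ^ m : Rˣ) : R) *
        (PowerSeries.C ((u ^ q.1 : Rˣ) : R) * PowerSeries.X ^ q.2.toNat) ^ p.2.toNat
    have h1 : ((u ^ p.1 : Rˣ) : R) ^ q.2.toNat =
        ((u ^ m : Rˣ) : R) * ((u ^ q.1 : Rˣ) : R) ^ p.2.toNat := by
      rw [← Units.val_pow_eq_pow_val, ← Units.val_pow_eq_pow_val, ← Units.val_mul]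
      congr 1
      rw [← zpow_natCast, ← zpow_natCast, ← zpow_mul, ← zpow_mul, ← zpow_add,
        Int.toNat_of_nonneg hp.le, Int.toNat_of_nonneg hq.le]
      congr 1
      rw [hm]
      ring
    rw [mul_pow, mul_pow, ← map_pow, ← map_pow, h1, map_mul, ← pow_mul, ← pow_mul,
      mul_comm q.2.toNat p.2.toNat]
    ring
  rw [exy]
  refine ⟨⟨PowerSeries.C ((v⁻¹ : Rˣ) : R), C_mem_rat _ _⟩,
    -(⟨PowerSeries.C ((v⁻¹ : Rˣ) : R), C_mem_rat _ _⟩ * w), ?_⟩
  set vi : rat u S := ⟨PowerSeries.C ((v⁻¹ : Rˣ) : R), C_mem_rat _ _⟩ with hvi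
  have h2 : vi * (1 - w) = 1 := by
    apply Subtype.ext
    show PowerSeries.C ((v⁻¹ : Rˣ) : R) * (1 - PowerSeries.C ((u ^ m : Rˣ) : R)) = 1
    have h3 : (1 : PowerSeries R) - PowerSeries.C ((u ^ m : Rˣ) : R) =
        PowerSeries.C (v : R) := by
      rw [hv, map_sub, map_one]
    rw [h3, ← map_mul, Units.inv_mul, map_one]
  linear_combination h2

theorem coprime_closure {S B1 B2 : Set (ℤ × ℤ)}
    (h : ∀ p ∈ B1, ∀ q ∈ B2, IsCoprime (denA u S p) (denA u S q)) {D1 D2 : rat u S}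
    (h1 : D1 ∈ Submonoid.closure (denA u S '' B1)) (h2 : D2 ∈ Submonoid.closure (denA u S '' B2)) :
    IsCoprime D1 D2 := by
  refine Submonoid.closure_induction (motive := fun D _ => IsCoprime D D2) ?_ ?_ ?_ h1
  · rintro _ ⟨p, hp, rfl⟩
    refine Submonoid.closure_induction (motive := fun D _ => IsCoprime (denA u S p) D) ?_ ?_ ?_ h2
    · rintro _ ⟨q, hq, rfl⟩
      exact h p hp q hq
    · exact isCoprime_one_right
    · intro x y _ _ hx hy
      exact hx.mul_right hy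
  · exact isCoprime_one_left
  · intro x y _ _ hx hy
    exact hx.mul_left hy

/-- **Denominators of different slopes.** -/
theorem rat_inter (hu : Sep u) {S B1 B2 : Set (ℤ × ℤ)} (hB1 : ∀ p ∈ B1, 0 < p.2)
    (hB2 : ∀ p ∈ B2, 0 < p.2) (hne : ∀ p ∈ B1, ∀ q ∈ B2, p.1 * q.2 ≠ q.1 * p.2)
    {V : PowerSeries R} (h1 : V ∈ rat u (S ∪ B1)) (h2 : V ∈ rat u (S ∪ B2)) : V ∈ rat u S := by
  obtain ⟨D1, hD1, hV1⟩ := clear hB1 h1
  obtain ⟨D2, hD2, hV2⟩ := clear hB2 h2
  obtain ⟨a, b, hab⟩ := coprime_closure (fun p hp q hq =>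
    coprime_den hu (hB1 p hp) (hB2 q hq) (hne p hp q hq)) hD1 hD2
  have h3 : V = (a : PowerSeries R) * ((D1 : PowerSeries R) * V) +
      (b : PowerSeries R) * ((D2 : PowerSeries R) * V) := by
    have h4 : (a : PowerSeries R) * (D1 : PowerSeries R) +
        (b : PowerSeries R) * (D2 : PowerSeries R) = 1 := by
      have := congrArg (Subtype.val) hab
      simpa using this
    linear_combination (-V) * h4
  rw [h3]
  exact (rat u S).add_mem ((rat u S).mul_mem a.2 hV1) ((rat u S).mul_mem b.2 hV2)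

/-! ### the substitution `T ↦ u T` -/

/-- the shift of the pairs -/
def shU (j : ℤ) (p : ℤ × ℤ) : ℤ × ℤ := (p.1 + j * p.2, p.2)

theorem rescale_X2 (L : R) : PowerSeries.rescale L (PowerSeries.X : PowerSeries R) =
    PowerSeries.C L * PowerSeries.X := by
  ext n
  rw [PowerSeries.coeff_rescale, PowerSeries.coeff_C_mul, PowerSeries.coeff_X]
  split_ifs with h
  · rw [h, pow_one]
  · rw [mul_zero, mul_zero]

theorem rescale_C2 (L a : R) : PowerSeries.rescale L (PowerSeries.C a : PowerSeries R) =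
    PowerSeries.C a := by
  ext n
  rw [PowerSeries.coeff_rescale, PowerSeries.coeff_C]
  split_ifs with h
  · rw [h, pow_zero, one_mul]
  · rw [mul_zero]

theorem rescale_den (p : ℤ × ℤ) (hp : 0 < p.2) :
    PowerSeries.rescale (u : R) (den u p) = den u (shU 1 p) := by
  unfold den shU
  rw [map_sub, map_one, map_mul, rescale_C2, map_pow, rescale_X2, mul_pow, ← map_pow, ← mul_assoc,
    ← map_mul]
  congr 3
  rw [← Units.val_pow_eq_pow_val, ← Units.val_mul, ← zpow_natCast, ← zpow_add,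
    Int.toNat_of_nonneg hp.le, one_mul]

theorem rescale_geoU (p : ℤ × ℤ) (hp : 0 < p.2) :
    PowerSeries.rescale (u : R) (geoU u p.1 p.2) = geoU u (shU 1 p).1 (shU 1 p).2 := by
  have h1 := congrArg (PowerSeries.rescale (u : R)) (den_geo (u := u) hp)
  rw [map_mul, map_one, rescale_den p hp] at h1
  have h2 := den_geo (u := u) (p := shU 1 p) hp
  calc PowerSeries.rescale (u : R) (geoU u p.1 p.2)
      = (den u (shU 1 p) * geoU u (shU 1 p).1 (shU 1 p).2) *
          PowerSeries.rescale (u : R) (geoU u p.1 p.2) := by rw [h2, one_mul]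
    _ = geoU u (shU 1 p).1 (shU 1 p).2 *
        (den u (shU 1 p) * PowerSeries.rescale (u : R) (geoU u p.1 p.2)) := by ring
    _ = _ := by rw [h1, mul_one]

theorem rescale_mem_rat {S T : Set (ℤ × ℤ)} (hS : ∀ p ∈ S, 0 < p.2) (hT : ∀ p ∈ S, shU 1 p ∈ T)
    {z : PowerSeries R} (hz : z ∈ rat u S) : PowerSeries.rescale (u : R) z ∈ rat u T := by
  unfold rat at hz
  refine Algebra.adjoin_induction (p := fun z _ =>
    PowerSeries.rescale (u : R) z ∈ rat u T) ?_ ?_ ?_ ?_ hz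
  · rintro x (hx | ⟨p, hp, rfl⟩)
    · rw [Set.mem_singleton_iff] at hx
      rw [hx, rescale_X2]
      exact (rat u _).mul_mem (C_mem_rat _ _) (X_mem_rat _)
    · rw [rescale_geoU p (hS p hp)]
      exact geo_mem_rat (hT p hp)
  · intro r
    rw [PowerSeries.algebraMap_apply, Algebra.algebraMap_self, RingHom.id_apply, rescale_C2]
    exact C_mem_rat _ _
  · intro x y _ _ hx hy
    rw [map_add]
    exact (rat u _).add_mem hx hy
  · intro x y _ _ hx hy
    rw [map_mul]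
    exact (rat u _).mul_mem hx hy

theorem shU_shU (i j : ℤ) (p : ℤ × ℤ) : shU i (shU j p) = shU (i + j) p := by
  unfold shU
  ext
  · simp only
    ring
  · rfl

/-- the same for powers of `u` -/
theorem rescale_pow_mem (j : ℕ) : ∀ {S T : Set (ℤ × ℤ)}, (∀ p ∈ S, 0 < p.2) →
    (∀ p ∈ S, shU j p ∈ T) → ∀ {z : PowerSeries R}, z ∈ rat u S →
      (PowerSeries.rescale (u : R))^[j] z ∈ rat u T := by
  induction j with
  | zero =>
    intro S T _ hT z hz
    refine rat_mono (fun p hp => ?_) hz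
    have := hT p hp
    unfold shU at this
    simpa using this
  | succ j ih =>
    intro S T hS hT z hz
    rw [Function.iterate_succ_apply]
    refine ih (S := shU 1 '' S) ?_ ?_ (rescale_mem_rat (T := shU 1 '' S) hS (fun p hp => ⟨p, hp, rfl⟩) hz)
    · rintro _ ⟨p, hp, rfl⟩
      exact hS p hp
    · rintro _ ⟨p, hp, rfl⟩
      have := hT p hp
      rw [shU_shU]
      rwa [Nat.cast_succ] at this

end

end Pool.Agent.J4.H25.MC
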