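import Pool.Agent.J4.H25.MC.Pt

set_option autoImplicit false

/-!
# The relations for the zeta functions with origin at `y = z = 0`
-/

namespace Pool.Agent.J4.H25.MC

open MvPolynomial Pool.Agent.W428.MOT
open Pool.Agent.W375.MG (JetG zetaG Good)
open Pool.Agent.Y229.MS
open Pool.Agent.Y971.MS (constr_jet)
open Pool.Agent.W63.MTFin (mapMeas geo_mul X_mem C_mem L_mul)

section
variable {K : Type} [Field K] {n : ℕ}

theorem addyz_zero (f : MvPolynomial (Fin n) K) {W : Set (Pt K (Fin n))}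
    (hf : ∀ x ∈ W, aeval x f = 0) : ∀ w ∈ W0 W, aeval w (addyz f) = 0 := by
  rintro w ⟨h1, h2, h3⟩
  rw [Pool.Agent.Y971.MS.aeval_addyz, h2, zero_mul, add_zero]
  exact hf _ h1

theorem jet_zero (f : MvPolynomial (Fin n) K) {W : Set (Pt K (Fin n))}
    (hf : ∀ x ∈ W, aeval x f = 0) {E : Set (AlgebraicClosure K)} (h0 : (0 : AlgebraicClosure K) ∉ E) :
    JetG f W E 0 = ∅ := by
  rw [Set.eq_empty_iff_forall_notMem]
  rintro z ⟨h1, -, h3⟩
  rw [coeff_zero_aeval, hf _ h1] at h3
  exact h0 h3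

variable {R : Type} [CommRing R]

/-- the tails, without the first two -/
noncomputable def phiP (M : Meas K R) (Y : R) (f : MvPolynomial (Fin n) K)
    (W : Set (Pt K (Fin n))) : PowerSeries R :=
  PowerSeries.mk fun i => if 2 ≤ i then M.χ _ (Tl f W i i) * Y ^ (n * i) else 0

theorem psum_phiP (M : Meas K R) (Y : R) (hL : M.L * Y = 1) (f : MvPolynomial (Fin n) K)
    {W : Set (Pt K (Fin n))} (hW : Constr W) (N : ℕ) :
    ∑ i ∈ Finset.range (N + 1), PowerSeries.coeff i (phiP M Y f W) =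
      (∑ i ∈ (Finset.range (N + 1)).filter (fun i => 2 ≤ i), M.χ _ (Tl f W i N)) *
        Y ^ (n * N) := by
  rw [Finset.sum_mul, Finset.sum_filter]
  refine Finset.sum_congr rfl fun i hi => ?_
  rw [phiP, PowerSeries.coeff_mk]
  split_ifs with h
  · rw [phi_level' Pool.Agent.Y812.MS.two M Y hL f W hW i N
      (Nat.lt_succ_iff.1 (Finset.mem_range.1 hi))]
  · rfl

/-- **The relation of the zeta functions.** -/
theorem rel1P (M : Meas K R) (Y : R) (hL : M.L * Y = 1)
    (f : MvPolynomial (Fin n) K) {W : Set (Pt K (Fin n))} (hW : Constr W)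
    (hf : ∀ x ∈ W, aeval x f = 0) {E : Set (AlgebraicClosure K)} (hE : CE E)
    (h0 : (0 : AlgebraicClosure K) ∉ E) :
    PowerSeries.rescale M.L (zs M Y (addyz f) (W0 W) E) =
      PowerSeries.C M.L * zs M Y f W E +
        PowerSeries.C (M.χ (Fin 1) {a | a 0 ∈ E} * (M.L - 1)) * Pool.Agent.Y229.MS.psum (phiP M Y f W) := by
  ext N
  rw [PowerSeries.coeff_rescale, map_add, PowerSeries.coeff_C_mul, PowerSeries.coeff_C_mul, zs, zs,
    Pool.Agent.Y229.MS.psum, PowerSeries.coeff_mk, PowerSeries.coeff_mk, PowerSeries.coeff_mk, psum_phiP M Y hL f hW]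
  rcases Nat.eq_zero_or_pos N with rfl | hN
  · rw [jet_zero _ (addyz_zero f hf) h0, jet_zero f hf h0, chi_empty, chi_empty]
    have h3 : (Finset.range (0 + 1)).filter (fun i => 2 ≤ i) = ∅ := by
      ext i
      simp only [Finset.mem_filter, Finset.mem_range, Finset.notMem_empty, iff_false]
      omega
    rw [h3, Finset.sum_empty]
    ring
  · rw [onePt M f hW hf hE hN]
    have h4 : M.L ^ N * Y ^ N = 1 := by rw [← mul_pow, hL, one_pow]
    have h5 : Y ^ ((n + 2) * N) = Y ^ (n * N) * (Y ^ N * Y ^ N) := by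
      rw [← pow_add, ← pow_add]
      congr 1
      ring
    rw [h5, pow_succ]
    set A := M.χ _ (JetG f W E N)
    set B := ∑ i ∈ (Finset.range (N + 1)).filter (fun i => 2 ≤ i), M.χ _ (Tl f W i N)
    set e := M.χ (Fin 1) {a | a 0 ∈ E}
    linear_combination ((A * M.L + e * (M.L - 1) * B) * Y ^ (n * N) *
      (M.L ^ N * Y ^ N + 1)) * h4

/-- **The relation of the tails.** -/
theorem rel2P (M : Meas K R) (Y : R) (hL : M.L * Y = 1)
    (f : MvPolynomial (Fin n) K) {W : Set (Pt K (Fin n))} (hW : Constr W)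
    (hf : ∀ x ∈ W, aeval x f = 0) :
    PowerSeries.rescale M.L (phiP M Y (addyz f) (W0 W)) =
      PowerSeries.C M.L * PowerSeries.C M.L * phiP M Y f W +
        PowerSeries.C (M.L * (M.L - 1)) * (PowerSeries.X * Pool.Agent.Y229.MS.psum (phiP M Y f W)) := by
  ext N
  rw [PowerSeries.coeff_rescale, map_add, mul_assoc, PowerSeries.coeff_C_mul,
    PowerSeries.coeff_C_mul, PowerSeries.coeff_C_mul]
  rcases N with _ | N
  · rw [PowerSeries.coeff_zero_X_mul, mul_zero, add_zero, phiP, phiP,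
      PowerSeries.coeff_mk, PowerSeries.coeff_mk, if_neg (by norm_num), if_neg (by norm_num)]
    ring
  · rw [PowerSeries.coeff_succ_X_mul, Pool.Agent.Y229.MS.psum, PowerSeries.coeff_mk, psum_phiP M Y hL f hW, phiP, phiP,
      PowerSeries.coeff_mk, PowerSeries.coeff_mk]
    rcases Nat.eq_zero_or_pos N with rfl | hN
    · rw [if_neg (by norm_num), if_neg (by norm_num)]
      have h3 : (Finset.range (0 + 1)).filter (fun i => 2 ≤ i) = ∅ := by
        ext i
        simp only [Finset.mem_filter, Finset.mem_range, Finset.notMem_empty, iff_false]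
        omega
      rw [h3, Finset.sum_empty]
      ring
    · rw [if_pos (by omega), if_pos (by omega),
        phi_succ Pool.Agent.Y812.MS.two M Y hL (addyz f) (W0 W) (constr_W0 hW) N,
        phi_succ Pool.Agent.Y812.MS.two M Y hL f W hW N,
        onePt M f hW hf ce_zero hN, chi_pt]
      have h4 : M.L ^ N * Y ^ N = 1 := by rw [← mul_pow, hL, one_pow]
      have h5 : Y ^ ((n + 2) * N) = Y ^ (n * N) * (Y ^ N * Y ^ N) := by
        rw [← pow_add, ← pow_add]
        congr 1
        ring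
      rw [h5, pow_succ]
      set A := M.χ _ (JetG f W {0} N)
      set B := ∑ i ∈ (Finset.range (N + 1)).filter (fun i => 2 ≤ i), M.χ _ (Tl f W i N)
      linear_combination ((A * M.L + (M.L - 1) * B) * Y ^ (n * N) * M.L *
        (M.L ^ N * Y ^ N + 1)) * h4

end

variable {K : Type} [Field K]

/-- **One step: an exact formula.** -/
theorem stepP [CharZero K] {n : ℕ} (f : MvPolynomial (Fin n) K)
    {W : Set (Pt K (Fin n))} (hW : Constr W) (hf : ∀ x ∈ W, aeval x f = 0)
    {E : Set (AlgebraicClosure K)} (hE : Good E) :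
    fst' K * zetaG f W E = PowerSeries.C ((((Lu K)⁻¹ : (MK K)ˣ) : MK K) ^ 3) *
      ((PowerSeries.C ((Lu K : (MK K)ˣ) : MK K) * PowerSeries.C ((Lu K : (MK K)ˣ) : MK K) +
          PowerSeries.C ((Lu K : (MK K)ˣ) : MK K)) *
        PowerSeries.rescale ((Lu K : (MK K)ˣ) : MK K) (fst' K * zetaG (addyz f) (W0 W) E) -
        PowerSeries.rescale ((Lu K : (MK K)ˣ) : MK K)
          (PowerSeries.rescale ((Lu K : (MK K)ˣ) : MK K)
            (fst' K * zetaG (addyz (addyz f)) (W0 (W0 W)) E))) := by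
  obtain ⟨M₀, hM₀⟩ := Pool.Agent.W417.MT.K0.main K
  set M := mapMeas M₀ (algebraMap (K0 K) (MK K)) with hM
  set Y : MK K := (((Lu K)⁻¹ : (MK K)ˣ) : MK K) with hY
  have hL : M.L * Y = 1 := L_mul hM₀
  have hML : M.L = ((Lu K : (MK K)ˣ) : MK K) := by
    have h2 : ((Lu K : (MK K)ˣ) : MK K) * Y = 1 := Units.mul_inv _
    calc M.L = M.L * (((Lu K : (MK K)ˣ) : MK K) * Y) := by rw [h2, mul_one]
      _ = (M.L * Y) * ((Lu K : (MK K)ˣ) : MK K) := by ring
      _ = _ := by rw [hL, one_mul]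
  have hz : ∀ {a : ℕ} (g : MvPolynomial (Fin a) K) (V : Set (Pt K (Fin a))),
      zetaG g V E = zs M Y g V E := by
    intro a g V
    ext N
    rw [zetaG, zs, PowerSeries.coeff_mk, PowerSeries.coeff_mk, zpow_neg, zpow_natCast, ← inv_pow,
      Units.val_pow_eq_pow_val, ← hM₀]
    rfl
  have r0 := rel1P M Y hL f hW hf (ce_good hE) hE.zero
  have r1 := rel1P M Y hL (addyz f) (constr_W0 hW) (addyz_zero f hf) (ce_good hE) hE.zero
  have r2 := rel2P M Y hL f hW hf
  set e : MK K := M.χ (Fin 1) {a | a 0 ∈ E} * (M.L - 1) with he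
  have hps := psum_mul (phiP M Y f W)
  have hps1 := psum_mul (phiP M Y (addyz f) (W0 W))
  have key := elim M.L Y hL (zs M Y f W E) (zs M Y (addyz f) (W0 W) E)
    (zs M Y (addyz (addyz f)) (W0 (W0 W)) E) (PowerSeries.C e * phiP M Y f W)
    (PowerSeries.C e * phiP M Y (addyz f) (W0 W))
    (by
      rw [r0]
      linear_combination (PowerSeries.C e) * hps)
    (by
      rw [r1]
      linear_combination (PowerSeries.C e) * hps1)
    (by
      rw [map_mul, rescale_C', r2]
      rw [map_mul PowerSeries.C M.L (M.L - 1), map_sub PowerSeries.C M.L 1, map_one]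
      linear_combination (PowerSeries.C e * PowerSeries.C M.L * (PowerSeries.C M.L - 1) *
        PowerSeries.X) * hps)
  rw [hz, hz, hz]
  unfold fst'
  rw [← hY, ← hML]
  exact key

end Pool.Agent.J4.H25.MC
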