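import Pool.Agent.J4.H25.MC.RelP
import Pool.Agent.J4.H25.MC.Rat
import Pool.Agent.Z864.MS.Three
import Pool.Agent.Y405.MS.Aut

set_option autoImplicit false

/-!
# The local motivic zeta functions of `f`, `f + y z` and of isomorphic polynomials at points
-/

namespace Pool.Agent.J4.H25.MC

open MvPolynomial Pool.Agent.W428.MOT
open Pool.Agent.W375.MG (JetG zetaG Good good_one)
open Pool.Agent.Y229.MS

variable {K : Type} [Field K] {n : ℕ}

/-- the geometric point -/
def pt (x : Fin n → K) : Set (Pt K (Fin n)) := {fun i => algebraMap K (AlgebraicClosure K) (x i)}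

theorem constr_point (x : Fin n → K) : Constr (pt x) := by
  classical
  have h1 : ∀ s : Finset (Fin n), Constr {z : Pt K (Fin n) |
      ∀ i ∈ s, z i = algebraMap K (AlgebraicClosure K) (x i)} := by
    intro s
    induction s using Finset.induction_on with
    | empty =>
      have h2 := Constr.zero (K := K) (ι := Fin n) 0
      simpa using h2
    | insert i s hi ih =>
      have h2 := (Constr.zero (K := K) (X i - C (x i) : MvPolynomial (Fin n) K)).inter ih
      convert h2 using 1
      ext z
      simp [sub_eq_zero]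
  have h2 := h1 Finset.univ
  unfold pt
  convert h2 using 1
  ext z
  simp [funext_iff]

/-- the point `(x, 0, 0)` -/
def ext0 (x : Fin n → K) : Fin (n + 2) → K := Fin.append x fun _ => 0

theorem W0_pt (x : Fin n → K) : W0 (pt x) = pt (ext0 x) := by
  ext w
  unfold pt ext0
  constructor
  · rintro ⟨h1, h2, h3⟩
    rw [Set.mem_singleton_iff] at h1
    rw [Set.mem_singleton_iff]
    funext i
    refine Fin.addCases (fun i => ?_) (fun j => ?_) i
    · rw [Fin.append_left]
      exact congrFun h1 i
    · rw [Fin.append_right, map_zero]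
      fin_cases j
      · exact h2
      · exact h3
  · intro h
    rw [Set.mem_singleton_iff] at h
    rw [h]
    refine ⟨?_, ?_, ?_⟩
    · rw [Set.mem_singleton_iff]
      funext i
      simp only [Fin.append_left]
    · simp only [Fin.append_right, map_zero]
    · simp only [Fin.append_right, map_zero]

theorem aeval_self (f : MvPolynomial (Fin n) K) (x : Fin n → K) : aeval x f = eval x f := by
  rw [aeval_def, Algebra.algebraMap_self]
  rfl

theorem aeval_pt (f : MvPolynomial (Fin n) K) (x : Fin n → K) :
    aeval (fun i => algebraMap K (AlgebraicClosure K) (x i)) f =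
      algebraMap K (AlgebraicClosure K) (eval x f) := by
  rw [← aeval_self]
  exact aeval_algebraMap_apply (AlgebraicClosure K) x f

theorem eval_addyz (f : MvPolynomial (Fin n) K) (x : Fin n → K) :
    eval (ext0 x) (addyz f) = eval x f := by
  unfold addyz ext0
  rw [map_add, map_mul, eval_X, eval_X, Fin.append_right, Fin.append_right, mul_zero, add_zero,
    eval_rename]
  have h : (Fin.append x fun _ => (0 : K)) ∘ Fin.castAdd 2 = x := by
    funext i
    simp only [Function.comp_apply, Fin.append_left]
  rw [h]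

/-- zero off the hypersurface -/
theorem zeta_off [CharZero K] (f : MvPolynomial (Fin n) K) (x : Fin n → K) (h : eval x f ≠ 0) :
    zeta f x = 0 := by
  obtain ⟨M₀, hM₀⟩ := Pool.Agent.W417.MT.K0.main K
  ext N
  rw [zeta, PowerSeries.coeff_mk, map_zero]
  by_cases hN : N = 0
  · rw [if_pos hN]
  · rw [if_neg hN]
    have h1 : Jet f x N = ∅ := by
      rw [Set.eq_empty_iff_forall_notMem]
      rintro z ⟨h2, h3⟩
      have h4 := h3 0 (Nat.zero_le _)
      rw [if_neg (Ne.symm hN), coeff_zero_aeval] at h4
      have h5 : (fun i => z (i, 0)) = fun i => algebraMap K (AlgebraicClosure K) (x i) :=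
        funext h2
      rw [h5, aeval_pt] at h4
      exact h ((map_eq_zero _).1 h4)
    rw [h1, ← hM₀, chi_empty, map_zero, zero_mul]

/-- on the hypersurface -/
theorem zeta_on [CharZero K] (f : MvPolynomial (Fin n) K) (x : Fin n → K) (h : eval x f = 0) :
    zeta f x = zetaG f (pt x) {1} := by
  obtain ⟨M₀, hM₀⟩ := Pool.Agent.W417.MT.K0.main K
  ext d
  by_cases hd : d = 0
  · subst hd
    rw [zeta, PowerSeries.coeff_mk, if_pos rfl, zetaG, PowerSeries.coeff_mk]
    have h1 : JetG f (pt x) {1} 0 = ∅ := by
      refine jet_zero f ?_ (by simp)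
      intro w hw
      unfold pt at hw
      rw [Set.mem_singleton_iff] at hw
      rw [hw, aeval_pt, h, map_zero]
    rw [h1, ← hM₀, chi_empty, map_zero, zero_mul]
  · rw [zeta, PowerSeries.coeff_mk, if_neg hd, zetaG, PowerSeries.coeff_mk]
    have h3 : Jet f x d = JetG f (pt x) {1} d := by
      ext z
      simp only [Jet, JetG, pt, Set.mem_ofPred_eq, Set.mem_singleton_iff, funext_iff]
      refine and_congr_right fun _ => ?_
      constructor
      · intro h
        refine ⟨fun j hj => ?_, ?_⟩
        · rw [h j hj.le, if_neg (by omega)]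
        · rw [h d le_rfl, if_pos rfl]
      · rintro ⟨h1, h2⟩ j hj
        by_cases h : j = d
        · rw [h, h2, if_pos rfl]
        · rw [h1 j (by omega), if_neg h]
    rw [h3]

/-- the zeta function of a constant polynomial -/
theorem zeta_const [CharZero K] (f : MvPolynomial (Fin n) K) (x : Fin n → K)
    (hf : f.totalDegree = 0) : zeta f x = 0 := by
  by_cases h : eval x f = 0
  · obtain ⟨c, rfl⟩ : ∃ c, f = C c := ⟨_, totalDegree_eq_zero_iff_eq_C.1 hf⟩
    rw [eval_C] at h
    subst h
    rw [C_0]
    obtain ⟨M₀, hM₀⟩ := Pool.Agent.W417.MT.K0.main K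
    ext N
    rw [zeta, PowerSeries.coeff_mk, map_zero]
    by_cases hN : N = 0
    · rw [if_pos hN]
    · rw [if_neg hN]
      have h1 : Jet (0 : MvPolynomial (Fin n) K) x N = ∅ := by
        rw [Set.eq_empty_iff_forall_notMem]
        rintro z ⟨h2, h3⟩
        have h4 := h3 N le_rfl
        rw [if_pos rfl, map_zero, map_zero] at h4
        exact zero_ne_one h4
      rw [h1, ← hM₀, chi_empty, map_zero, zero_mul]
  · exact zeta_off f x h

/-- **The exact formula.** -/
theorem formula [CharZero K] (f : MvPolynomial (Fin n) K) (x : Fin n → K) (h : eval x f = 0) :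
    fst' K * zeta f x = PowerSeries.C ((((Lu K)⁻¹ : (MK K)ˣ) : MK K) ^ 3) *
      ((PowerSeries.C ((Lu K : (MK K)ˣ) : MK K) * PowerSeries.C ((Lu K : (MK K)ˣ) : MK K) +
          PowerSeries.C ((Lu K : (MK K)ˣ) : MK K)) *
        PowerSeries.rescale ((Lu K : (MK K)ˣ) : MK K) (fst' K * zeta (addyz f) (ext0 x)) -
        PowerSeries.rescale ((Lu K : (MK K)ˣ) : MK K)
          (PowerSeries.rescale ((Lu K : (MK K)ˣ) : MK K)
            (fst' K * zeta (addyz (addyz f)) (ext0 (ext0 x))))) := by
  have h1 : eval (ext0 x) (addyz f) = 0 := by rw [eval_addyz, h]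
  have h2 : eval (ext0 (ext0 x)) (addyz (addyz f)) = 0 := by rw [eval_addyz, h1]
  rw [zeta_on f x h, zeta_on _ _ h1, zeta_on _ _ h2, ← W0_pt, ← W0_pt, ← W0_pt]
  refine stepP f (constr_point x) ?_ good_one
  intro w hw
  unfold pt at hw
  rw [Set.mem_singleton_iff] at hw
  rw [hw, aeval_pt, h, map_zero]

/-! ### isomorphisms -/

/-- the image of the point -/
noncomputable def mv (ψ : MvPolynomial (Fin n) K ≃ₐ[K] MvPolynomial (Fin n) K) (x : Fin n → K) :
    Fin n → K := fun j => eval x (ψ.symm (X j))

theorem eval_mv (ψ : MvPolynomial (Fin n) K ≃ₐ[K] MvPolynomial (Fin n) K) (x : Fin n → K)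
    (g : MvPolynomial (Fin n) K) : eval (mv ψ x) g = eval x (ψ.symm g) := by
  have h : (aeval (mv ψ x) : MvPolynomial (Fin n) K →ₐ[K] K) =
      (aeval x).comp (ψ.symm : MvPolynomial (Fin n) K →ₐ[K] MvPolynomial (Fin n) K) := by
    apply MvPolynomial.algHom_ext
    intro i
    rw [aeval_X, AlgHom.comp_apply, aeval_self]
    rfl
  have h1 := DFunLike.congr_fun h g
  rw [AlgHom.comp_apply, aeval_self, aeval_self] at h1
  exact h1

theorem zeta_iso' [CharZero K] (ψ : MvPolynomial (Fin n) K ≃ₐ[K] MvPolynomial (Fin n) K)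
    (g : MvPolynomial (Fin n) K) (x : Fin n → K) : zeta (ψ g) (mv ψ x) = zeta g x := by
  by_cases h : eval x g = 0
  · have h1 : eval (mv ψ x) (ψ g) = 0 := by rw [eval_mv, AlgEquiv.symm_apply_apply, h]
    rw [zeta_on _ _ h, zeta_on _ _ h1]
    obtain ⟨M₀, hM₀⟩ := Pool.Agent.W417.MT.K0.main K
    have h2 : pt (mv ψ x) = {w | (fun i => aeval w (ψ (X i))) ∈ pt x} := by
      have h3 : ∀ g : MvPolynomial (Fin n) K,
          aeval (fun i => algebraMap K (AlgebraicClosure K) (mv ψ x i)) g =
          algebraMap K (AlgebraicClosure K) (eval x (ψ.symm g)) := by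
        intro g
        rw [aeval_pt, eval_mv]
      ext w
      unfold pt
      rw [Set.mem_singleton_iff]
      constructor
      · rintro rfl
        show (fun i => _) ∈ ({_} : Set _)
        rw [Set.mem_singleton_iff]
        funext i
        rw [h3, AlgEquiv.symm_apply_apply, eval_X]
      · intro hw
        have hw' : (fun i => aeval w (ψ (X i))) =
            fun i => algebraMap K (AlgebraicClosure K) (x i) := hw
        have h4 : ∀ g : MvPolynomial (Fin n) K, aeval w (ψ g) =
            aeval (fun i => algebraMap K (AlgebraicClosure K) (x i)) g := by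
          intro g
          have h5 := Pool.Agent.Z864.MS.aeval_cmp
            (ψ : MvPolynomial (Fin n) K →ₐ[K] MvPolynomial (Fin n) K) w g
          rw [← hw']
          exact h5.symm
        funext j
        have h6 := h4 (ψ.symm (X j))
        rw [AlgEquiv.apply_symm_apply, aeval_X, aeval_pt] at h6
        rw [h6]
        rfl
    ext N
    rw [zetaG, zetaG, PowerSeries.coeff_mk, PowerSeries.coeff_mk, ← hM₀, ← hM₀, h2,
      Pool.Agent.Z864.MS.three K _ M₀ ψ g (pt x) {1} (constr_point x) (ce_good good_one) N]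
  · have h1 : eval (mv ψ x) (ψ g) ≠ 0 := by rwa [eval_mv, AlgEquiv.symm_apply_apply]
    rw [zeta_off _ _ h, zeta_off _ _ h1]

end Pool.Agent.J4.H25.MC
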