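import Pool.Agent.Y229.PG.Main
import Pool.Agent.J4.H25.MC.ZP
import Pool.Agent.J4.H25.MC.Deg

set_option autoImplicit false

/-!
# Roots of the reduced Bernstein-Sato polynomials of `f` and `f + y z`
-/

namespace Pool.Agent.J4.H25.MC

open MvPolynomial Pool.Agent.H628R4.TP
open Pool.Agent.Y229.RE (stab)
open Pool.Agent.Y229.PG (BecomesG becomes_global cj_all)
open Pool.Agent.W578.SI (b_transfer)
open Pool.Agent.Y229.MS (addyz itr)

variable {n : ℕ}

/-- `p.1 / p.2` is a root of all `b` in the Bernstein-Sato ideal -/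
def RT (f : MvPolynomial (Fin n) ℂ) (p : ℤ × ℤ) : Prop :=
  0 < p.2 ∧ ∀ b : Polynomial ℂ, IsBFunction f b → b.eval ((p.1 : ℂ) / p.2) = 0

/-- `p.1 / p.2` is a root of all `c` with `(s + 1) c(s)` in the Bernstein-Sato ideal -/
def RR (f : MvPolynomial (Fin n) ℂ) (p : ℤ × ℤ) : Prop :=
  0 < p.2 ∧ ∀ c : Polynomial ℂ, IsBFunction f ((Polynomial.X + 1) * c) →
    c.eval ((p.1 : ℂ) / p.2) = 0

theorem stab_one (f : MvPolynomial (Fin n) ℂ) : stab f 1 = addyz f := by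
  unfold stab addyz
  rw [Fin.sum_univ_one]
  rfl

theorem bstep {f : MvPolynomial (Fin n) ℂ} (hf : f.totalDegree ≠ 0) {c : Polynomial ℂ}
    (h : IsBFunction f ((Polynomial.X + 1) * c)) : IsBFunction (addyz f)
      ((Polynomial.X + 1) * c.comp (Polynomial.X + Polynomial.C ((1 : ℕ) : ℂ))) := by
  have h1 := (becomes_global (k := 1) (G := stab f 1) hf h ⟨AlgEquiv.refl, rfl⟩).2 _ rfl
  rw [stab_one] at h1
  exact h1

theorem bneg {f : MvPolynomial (Fin n) ℂ} (hf : f.totalDegree ≠ 0) {b : Polynomial ℂ}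
    (h : IsBFunction f b) : b.eval (-1) = 0 :=
  (becomes_global (k := 0) (G := stab f 0) hf h ⟨AlgEquiv.refl, rfl⟩).1

theorem biso (φ : MvPolynomial (Fin n) ℂ ≃ₐ[ℂ] MvPolynomial (Fin n) ℂ)
    {f : MvPolynomial (Fin n) ℂ} {b : Polynomial ℂ} (h : IsBFunction f b) :
    IsBFunction (φ f) b := by
  have h1 := b_transfer φ (cj_all φ) 1 one_ne_zero f b h
  rwa [C_1, one_mul] at h1

theorem rr_addyz {f : MvPolynomial (Fin n) ℂ} (hf : f.totalDegree ≠ 0) {p : ℤ × ℤ}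
    (h : RR (addyz f) p) : RR f (shU 1 p) := by
  refine ⟨h.1, fun c hc => ?_⟩
  have h1 := h.2 _ (bstep hf hc)
  rw [Polynomial.eval_comp, Polynomial.eval_add, Polynomial.eval_X, Polynomial.eval_C] at h1
  have h2 : ((p.2 : ℤ) : ℂ) ≠ 0 := by exact_mod_cast h.1.ne'
  have h3 : (((shU 1 p).1 : ℤ) : ℂ) / ((shU 1 p).2 : ℤ) = (p.1 : ℂ) / p.2 + ((1 : ℕ) : ℂ) := by
    unfold shU
    push_cast
    rw [add_div, one_mul, div_self h2]
  rw [h3]
  exact h1

theorem rr_iso (φ : MvPolynomial (Fin n) ℂ ≃ₐ[ℂ] MvPolynomial (Fin n) ℂ)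
    {f : MvPolynomial (Fin n) ℂ} {p : ℤ × ℤ} (h : RR (φ f) p) : RR f p :=
  ⟨h.1, fun c hc => h.2 c (biso φ hc)⟩

theorem rt_iso (φ : MvPolynomial (Fin n) ℂ ≃ₐ[ℂ] MvPolynomial (Fin n) ℂ)
    {f : MvPolynomial (Fin n) ℂ} {p : ℤ × ℤ} (h : RT (φ f) p) : RT f p :=
  ⟨h.1, fun c hc => h.2 c (biso φ hc)⟩

theorem rt_cases {f : MvPolynomial (Fin n) ℂ} {p : ℤ × ℤ} (h : RT f p) :
    p.1 = -p.2 ∨ RR f p := by
  by_cases h1 : (p.1 : ℂ) / p.2 + 1 = 0
  · left
    have h2 : ((p.2 : ℤ) : ℂ) ≠ 0 := by exact_mod_cast h.1.ne'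
    have h3 : ((p.1 : ℤ) : ℂ) = -p.2 := by
      field_simp at h1
      linear_combination h1
    exact_mod_cast h3
  · right
    refine ⟨h.1, fun c hc => ?_⟩
    have h2 := h.2 _ hc
    rw [Polynomial.eval_mul, Polynomial.eval_add, Polynomial.eval_X, Polynomial.eval_one] at h2
    exact (mul_eq_zero.1 h2).resolve_left h1

theorem rr_rt {f : MvPolynomial (Fin n) ℂ} (hf : f.totalDegree ≠ 0) {p : ℤ × ℤ} (h : RR f p) :
    RT f p := by
  refine ⟨h.1, fun b hb => ?_⟩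
  have h1 := bneg hf hb
  obtain ⟨c, hc⟩ : (Polynomial.X + 1 : Polynomial ℂ) ∣ b := by
    have := Polynomial.dvd_iff_isRoot.2 h1
    simpa using this
  rw [hc, Polynomial.eval_mul, h.2 c (hc ▸ hb), mul_zero]

theorem rt_neg {f : MvPolynomial (Fin n) ℂ} (hf : f.totalDegree ≠ 0) : RT f (-1, 1) := by
  refine ⟨one_pos, fun b hb => ?_⟩
  have h1 : (((-1 : ℤ) : ℂ) / ((1 : ℤ) : ℂ)) = -1 := by norm_num
  simp only [h1]
  exact bneg hf hb

/-! ### the stabilisations -/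

section
variable {k : Type} [Field k]

theorem eval_addyz' (f : MvPolynomial (Fin n) k) (w : Fin (n + 2) → k) :
    eval w (addyz f) = eval (fun i => w (Fin.castAdd 2 i)) f +
      w (Fin.natAdd n 0) * w (Fin.natAdd n 1) := by
  unfold addyz
  rw [map_add, map_mul, eval_X, eval_X, eval_rename]
  rfl

theorem deg_addyz (f : MvPolynomial (Fin n) k) : (addyz f).totalDegree ≠ 0 := by
  intro h
  have h1 := totalDegree_eq_zero_iff_eq_C.1 h
  set c := coeff 0 (addyz f)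
  have h2 := eval_addyz' f (Fin.append (fun _ => 0) fun _ => 1)
  have h3 := eval_addyz' f (Fin.append (fun _ => 0) fun _ => 0)
  rw [h1, eval_C] at h2 h3
  simp only [Fin.append_left, Fin.append_right, mul_one, mul_zero, add_zero] at h2 h3
  rw [← h3] at h2
  exact one_ne_zero (left_eq_add.1 h2)

theorem deg_itr (f : MvPolynomial (Fin n) k) (hf : f.totalDegree ≠ 0) (j : ℕ) :
    (itr f j).totalDegree ≠ 0 := by
  cases j with
  | zero => exact hf
  | succ j => exact deg_addyz (itr f j)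

theorem map_addyz {K : Type} [Field K] (g : k →+* K) (f : MvPolynomial (Fin n) k) :
    map g (addyz f) = addyz (map g f) := by
  unfold addyz
  simp only [map_add, map_mul, map_X, map_rename]

theorem map_itr {K : Type} [Field K] (g : k →+* K) (f : MvPolynomial (Fin n) k) (j : ℕ) :
    map g (itr f j) = itr (map g f) j := by
  induction j with
  | zero => rfl
  | succ j ih =>
    show map g (addyz (itr f j)) = addyz (itr (map g f) j)
    rw [map_addyz, ih]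

theorem deg_map (K : Type) [Field K] [Algebra k K] (f : MvPolynomial (Fin n) k) :
    (map (algebraMap k K) f).totalDegree = f.totalDegree := by
  rw [totalDegree, totalDegree, support_map_of_injective _ (algebraMap k K).injective]

end

theorem rr_itr {f : MvPolynomial (Fin n) ℂ} (hf : f.totalDegree ≠ 0) (j : ℕ) :
    ∀ {p : ℤ × ℤ}, RR (itr f j) p → RR f (shU j p) := by
  induction j with
  | zero =>
    intro p h
    have h1 : shU ((0 : ℕ) : ℤ) p = p := by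
      unfold shU
      simp
    rw [h1]
    exact h
  | succ j ih =>
    intro p h
    have h1 := ih (rr_addyz (deg_itr f hf j) h)
    rw [shU_shU] at h1
    rwa [Nat.cast_succ]

/-! ### roots modulo the integers -/

/-- `p.1 / p.2 - i`, `i` an integer, is a root of `b`, for all `b` in the Bernstein-Sato ideal -/
def RW (f : MvPolynomial (Fin n) ℂ) (p : ℤ × ℤ) : Prop :=
  0 < p.2 ∧ ∀ b : Polynomial ℂ, IsBFunction f b → ∃ i : ℤ, b.eval ((p.1 : ℂ) / p.2 - i) = 0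

theorem rw_addyz {f : MvPolynomial (Fin n) ℂ} (hf : f.totalDegree ≠ 0) {p : ℤ × ℤ}
    (h : RW (addyz f) p) : RW f p := by
  refine ⟨h.1, fun b hb => ?_⟩
  have h1 := bneg hf hb
  obtain ⟨c, hc⟩ : (Polynomial.X + 1 : Polynomial ℂ) ∣ b := by
    have := Polynomial.dvd_iff_isRoot.2 h1
    simpa using this
  obtain ⟨i, hi⟩ := h.2 _ (bstep hf (hc ▸ hb))
  rw [Polynomial.eval_mul, Polynomial.eval_comp, Polynomial.eval_add, Polynomial.eval_add,
    Polynomial.eval_X, Polynomial.eval_C, Polynomial.eval_one] at hi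
  rcases mul_eq_zero.1 hi with h2 | h2
  · refine ⟨i, ?_⟩
    rw [eq_neg_of_add_eq_zero_left h2]
    exact h1
  · refine ⟨i - 1, ?_⟩
    have h3 : (p.1 : ℂ) / p.2 - ((i - 1 : ℤ) : ℂ) = (p.1 : ℂ) / p.2 - i + ((1 : ℕ) : ℂ) := by
      push_cast
      ring
    rw [h3, hc, Polynomial.eval_mul, h2, mul_zero]

theorem rw_iso (φ : MvPolynomial (Fin n) ℂ ≃ₐ[ℂ] MvPolynomial (Fin n) ℂ)
    {f : MvPolynomial (Fin n) ℂ} {p : ℤ × ℤ} (h : RW (φ f) p) : RW f p :=
  ⟨h.1, fun c hc => h.2 c (biso φ hc)⟩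

theorem rw_itr {f : MvPolynomial (Fin n) ℂ} (hf : f.totalDegree ≠ 0) (j : ℕ) :
    ∀ {p : ℤ × ℤ}, RW (itr f j) p → RW f p := by
  induction j with
  | zero => exact fun h => h
  | succ j ih => exact fun h => ih (rw_addyz (deg_itr f hf j) h)

theorem rw_shU {f : MvPolynomial (Fin n) ℂ} (j : ℤ) {p : ℤ × ℤ} (h : RW f p) :
    RW f (shU j p) := by
  refine ⟨h.1, fun b hb => ?_⟩
  obtain ⟨i, hi⟩ := h.2 b hb
  refine ⟨i + j, ?_⟩
  have h2 : ((p.2 : ℤ) : ℂ) ≠ 0 := by exact_mod_cast h.1.ne'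
  have h3 : (((shU j p).1 : ℤ) : ℂ) / ((shU j p).2 : ℤ) = (p.1 : ℂ) / p.2 + j := by
    unfold shU
    push_cast
    rw [add_div, mul_div_cancel_right₀ _ h2]
  rw [h3]
  convert hi using 2
  push_cast
  ring

theorem rw_neg {f : MvPolynomial (Fin n) ℂ} (hf : f.totalDegree ≠ 0) : RW f (-1, 1) := by
  refine ⟨one_pos, fun b hb => ⟨0, ?_⟩⟩
  have h1 : (((-1 : ℤ) : ℂ) / ((1 : ℤ) : ℂ)) - ((0 : ℤ) : ℂ) = -1 := by norm_num
  simp only [h1]
  exact bneg hf hb

end Pool.Agent.J4.H25.MC
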